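import Pool.Agent.U198.LO.Fin

/-!
# Configurations of one path and loops
-/

set_option autoImplicit false
set_option linter.unusedVariables false

namespace Pool.Agent.U198.LO

open H974 Finset
open Pool.Agent.U198.FK (Fl mem_Fl Expl expl nT)
open scoped Classical

noncomputable section

variable {W H : ℕ}

/-- the edges at a vertex of the honeycomb lattice -/
theorem at_v {F : Finset Edg} (hF : F ⊆ HE W H) {x y : ℤ} {f : Edg} (hf : f ∈ F)
    (hv : src f = (x, y) ∨ tgt f = (x, y)) :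
    f = (x - 1, y, true) ∨ f = (x, y, true) ∨ (Even (x + y) ∧ f = (x, y, false)) ∨
      (Odd (x + y) ∧ f = (x, y - 1, false)) := by
  obtain ⟨x', y', b'⟩ := f
  cases b'
  · simp only [src_mk, tgt_false, Prod.mk.injEq] at hv
    have h1 := (mem_HE_false.1 (hF hf)).2
    rcases hv with ⟨rfl, rfl⟩ | ⟨rfl, hy⟩
    · exact Or.inr (Or.inr (Or.inl ⟨h1, rfl⟩))
    · obtain rfl : y' = y - 1 := by omega
      refine Or.inr (Or.inr (Or.inr ⟨?_, rfl⟩))
      obtain ⟨k, hk⟩ := h1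
      exact ⟨k, by omega⟩
  · simp only [src_mk, tgt_true, Prod.mk.injEq] at hv
    rcases hv with ⟨rfl, rfl⟩ | ⟨hx', rfl⟩
    · exact Or.inr (Or.inl rfl)
    · obtain rfl : x' = x - 1 := by omega
      exact Or.inl rfl

theorem dg_le3 {F : Finset Edg} (hF : F ⊆ HE W H) (v : Vtx) : dg F v ≤ 3 := by
  obtain ⟨x, y⟩ := v
  obtain ⟨s, hs⟩ : ∃ s : Edg, ∀ f, ((Even (x + y) ∧ f = (x, y, false)) ∨
      (Odd (x + y) ∧ f = (x, y - 1, false))) → f = s := by
    rcases Int.even_or_odd (x + y) with h | h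
    · refine ⟨(x, y, false), ?_⟩
      rintro f (⟨_, h1⟩ | ⟨h1, _⟩)
      · exact h1
      · exact absurd h (Int.not_even_iff_odd.2 h1)
    · refine ⟨(x, y - 1, false), ?_⟩
      rintro f (⟨h1, _⟩ | ⟨_, h1⟩)
      · exact absurd h1 (Int.not_even_iff_odd.2 h)
      · exact h1
  have hsub : F.filter (fun e => src e = (x, y) ∨ tgt e = (x, y)) ⊆
      {((x - 1, y, true) : Edg), ((x, y, true) : Edg), s} := by
    intro f hf
    obtain ⟨h1, h2⟩ := mem_filter.1 hf
    rw [mem_insert, mem_insert, mem_singleton]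
    rcases at_v hF h1 h2 with h | h | h | h
    · exact Or.inl h
    · exact Or.inr (Or.inl h)
    · exact Or.inr (Or.inr (hs f (Or.inl h)))
    · exact Or.inr (Or.inr (hs f (Or.inr h)))
  exact (card_le_card hsub).trans card_le_three

theorem dg_le2 {F : Finset Edg} (hF : F ⊆ HE W H) {x y : ℤ}
    (h : (Odd (x + y) ∧ y = 0) ∨ (Even (x + y) ∧ y = H)) : dg F (x, y) ≤ 2 := by
  have hsub : F.filter (fun e => src e = (x, y) ∨ tgt e = (x, y)) ⊆
      {((x - 1, y, true) : Edg), ((x, y, true) : Edg)} := by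
    intro f hf
    obtain ⟨h1, h2⟩ := mem_filter.1 hf
    rw [mem_insert, mem_singleton]
    rcases at_v hF h1 h2 with h3 | h3 | ⟨h3, h4⟩ | ⟨h3, h4⟩
    · exact Or.inl h3
    · exact Or.inr h3
    · exfalso
      rw [h4] at h1
      have h5 := (mem_HE_false.1 (hF h1)).1
      rcases h with ⟨h6, _⟩ | ⟨_, h6⟩
      · exact absurd h3 (Int.not_even_iff_odd.2 h6)
      · omega
    · exfalso
      rw [h4] at h1
      have h5 := (mem_HE_false.1 (hF h1)).1
      rcases h with ⟨_, h6⟩ | ⟨h6, _⟩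
      · omega
      · exact absurd h6 (Int.not_even_iff_odd.2 h3)
  exact (card_le_card hsub).trans card_le_two

/-- the configurations of one path from `a` to `b` and of loops -/
def Cf (W H : ℕ) (a b : Vtx) : Finset (Finset Edg) :=
  (HE W H).powerset.filter (fun F => dg F a = 1 ∧ dg F b = 1 ∧
    ∀ v, v ≠ a → v ≠ b → dg F v = 0 ∨ dg F v = 2)

theorem Cf_eq {α β : ℤ} (hα : Odd α) (hβ : Even (β + H)) :
    Cf W H (α, 0) (β, H) = LC W H (α, 0) (β, H) := by
  ext F
  rw [mem_LC]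
  unfold Cf
  rw [mem_filter, mem_powerset]
  constructor
  · rintro ⟨h1, h2, h3, h4⟩
    refine ⟨h1, fun v => ⟨fun h5 => ?_, ?_⟩⟩
    · by_contra h6
      rw [not_or] at h6
      rcases h4 v h6.1 h6.2 with h7 | h7
      · rw [h7] at h5
        exact absurd h5 (by decide)
      · rw [h7] at h5
        exact absurd h5 (by decide)
    · rintro (rfl | rfl)
      · rw [h2]; decide
      · rw [h3]; decide
  · rintro ⟨h1, h2⟩
    refine ⟨h1, ?_, ?_, ?_⟩
    · have h3 := dg_le2 h1 (x := α) (y := 0) (Or.inl ⟨by rwa [add_zero], rfl⟩)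
      obtain ⟨k, hk⟩ := (h2 (α, 0)).2 (Or.inl rfl)
      omega
    · have h3 := dg_le2 h1 (x := β) (y := H) (Or.inr ⟨hβ, rfl⟩)
      obtain ⟨k, hk⟩ := (h2 (β, (H : ℤ))).2 (Or.inr rfl)
      omega
    · intro v h3 h4
      have h5 := dg_le3 h1 v
      have h6 : ¬ Odd (dg F v) := fun h => ((h2 v).1 h).elim h3 h4
      rw [Nat.not_odd_iff_even] at h6
      obtain ⟨k, hk⟩ := h6
      omega

/-- the path has at least `H` edges -/
theorem le_Pt {a b : Vtx} (ha : a.2 = 0) (hb : b.2 = H) {F : Finset Edg} (hF : F ∈ LC W H a b) :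
    H ≤ (Pt a F).card := by
  have h1 : ∀ i : ℕ, i < H → ∃ X : ℤ, ((X, (i : ℤ), false) : Edg) ∈ Pt a F := by
    intro i hi
    obtain ⟨X, h2, h3⟩ := cross ha hb hF (y := (i : ℤ) + 1) (by omega) (by omega)
    rw [add_sub_cancel_right] at h2
    refine ⟨X, mem_Fl.2 ⟨(mem_ct.1 h2).1, ?_⟩⟩
    have h4 : Reach (↑F : Set Edg) a (X, (i : ℤ) + 1) := Reach.mono (by
      intro f hf
      exact Finset.mem_coe.2 (mem_ct.1 (Finset.mem_coe.1 hf)).1) h3
    exact h4.trans (Adj.reach ⟨_, Finset.mem_coe.2 (mem_ct.1 h2).1, Or.inr ⟨rfl, rfl⟩⟩)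
  choose! X hX using h1
  have h2 : ((Finset.range H).image (fun i : ℕ => ((X i, (i : ℤ), false) : Edg))).card = H := by
    rw [card_image_of_injOn, card_range]
    intro i _ j _ hij
    simp only [Prod.mk.injEq] at hij
    exact_mod_cast hij.2.1
  rw [← h2]
  refine card_le_card ?_
  intro f hf
  obtain ⟨i, hi, rfl⟩ := mem_image.1 hf
  exact hX i (mem_range.1 hi)

/-- walks give configurations -/
theorem ex_dz {a w : Vtx} (h : Reach (↑(HE W H) : Set Edg) a w) :
    ∃ F ⊆ HE W H, ∀ v, dz F v = (if v = a then 1 else 0) + (if v = w then 1 else 0) := by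
  induction h with
  | refl =>
    refine ⟨∅, empty_subset _, fun v => ?_⟩
    unfold dz
    rw [sum_empty]
    exact (CharTwo.add_self_eq_zero _).symm
  | @tail u w _ hs ih =>
    obtain ⟨F, hF, h1⟩ := ih
    obtain ⟨e, he, hs⟩ := hs
    have h2 : ∀ v, dz {e} v = (if v = u then 1 else 0) + (if v = w then 1 else 0) := by
      intro v
      unfold dz
      rw [sum_singleton]
      rcases hs with ⟨rfl, rfl⟩ | ⟨rfl, rfl⟩
      · simp only [eq_comm]
      · rw [add_comm]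
        simp only [eq_comm]
    refine ⟨symmDiff F {e}, ?_, fun v => ?_⟩
    · intro f hf
      rcases mem_symmDiff.1 hf with h | h
      · exact hF h.1
      · rw [mem_singleton.1 h.1]
        exact Finset.mem_coe.1 he
    · rw [dz_symm, h1, h2]
      have h3 : (if v = u then (1 : ZMod 2) else 0) + (if v = u then 1 else 0) = 0 :=
        CharTwo.add_self_eq_zero _
      linear_combination h3

theorem hrow (W H : ℕ) {y : ℤ} (h0 : 0 ≤ y) (hy : y ≤ H) (x : ℕ) (hx : x ≤ W) :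
    Reach (↑(HE W H) : Set Edg) (0, y) ((x : ℤ), y) := by
  induction x with
  | zero => exact Reach.refl _ _
  | succ x ih =>
    refine (ih (by omega)).trans (Adj.reach ⟨((x : ℤ), y, true), ?_, Or.inl ⟨rfl, ?_⟩⟩)
    · rw [Finset.mem_coe, mem_HE_true]
      omega
    · simp

theorem hcol (W H : ℕ) (hW : 1 ≤ W) (y : ℕ) (hy : y ≤ H) :
    Reach (↑(HE W H) : Set Edg) (0, 0) (0, (y : ℤ)) := by
  induction y with
  | zero => exact Reach.refl _ _
  | succ y ih =>
    refine (ih (by omega)).trans ?_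
    obtain ⟨x, hx, hp⟩ : ∃ x : ℕ, x ≤ W ∧ Even ((x : ℤ) + y) := by
      rcases Int.even_or_odd (y : ℤ) with h | h
      · exact ⟨0, by omega, by simpa using h⟩
      · refine ⟨1, hW, ?_⟩
        obtain ⟨k, hk⟩ := h
        exact ⟨k + 1, by push_cast; omega⟩
    have h1 := hrow W H (y := (y : ℤ)) (by omega) (by omega) x hx
    have h2 := hrow W H (y := (y : ℤ) + 1) (by omega) (by omega) x hx
    have h3 : Reach (↑(HE W H) : Set Edg) ((x : ℤ), (y : ℤ)) ((x : ℤ), (y : ℤ) + 1) := by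
      refine Adj.reach ⟨((x : ℤ), (y : ℤ), false), ?_, Or.inl ⟨rfl, ?_⟩⟩
      · rw [Finset.mem_coe, mem_HE_false]
        exact ⟨by omega, hp⟩
      · simp
    push_cast
    exact h1.trans (h3.trans h2.symm)

/-- there is a configuration -/
theorem LC_ne {α β : ℤ} (hW : 1 ≤ W) (hH : 1 ≤ H) (h1 : 0 ≤ α) (h2 : α ≤ W) (h3 : 0 ≤ β)
    (h4 : β ≤ W) : (LC W H (α, 0) (β, H)).Nonempty := by
  obtain ⟨p, rfl⟩ := Int.eq_ofNat_of_zero_le h1
  obtain ⟨q, rfl⟩ := Int.eq_ofNat_of_zero_le h3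
  have k1 := hrow W H (y := 0) le_rfl (by omega) p (by omega)
  have k2 := hrow W H (y := H) (by omega) le_rfl q (by omega)
  have k3 := hcol W H hW H le_rfl
  obtain ⟨F, hF, h5⟩ := ex_dz (k1.symm.trans (k3.trans k2))
  refine ⟨F, mem_LC.2 ⟨hF, fun v => ?_⟩⟩
  rw [odd_dg, h5]
  have h6 : ((p : ℤ), (0 : ℤ)) ≠ ((q : ℤ), (H : ℤ)) := by
    intro h
    have := (Prod.mk.inj h).2
    omega
  by_cases h7 : v = ((p : ℤ), (0 : ℤ))
  · have h8 : v ≠ ((q : ℤ), (H : ℤ)) := fun h => h6 (h7.symm.trans h)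
    simp [h7, h6]
  · by_cases h8 : v = ((q : ℤ), (H : ℤ))
    · simp [h8, Ne.symm h6]
    · simp [h7, h8]

variable {a b : Vtx}

open Pool.Agent.N929.EG in
/-- **all orders**, jointly with the loops -/
theorem mainL {c : ℝ} (hc : 1 ≤ c) (r : ℕ) : ∃ C : ℝ, 0 < C ∧ ∀ n x : ℝ, Bd c n x →
    ∀ (W H : ℕ) (a b : Vtx), Even W → 4 ≤ W → 1 ≤ H → a.2 = 0 → b.2 = H →
    ∀ g : Finset Edg → ℕ → ℝ, (∀ L m, |g L m| ≤ 1) →
    |∑ F ∈ LC W H a b, wt n x a F * Seq.D 4 r (g (Lo a F)) (Pt a F).card| ≤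
      C / Real.sqrt H ^ r * ∑ F ∈ LC W H a b, wt n x a F := by
  have hc0 : 0 < c := by linarith
  obtain ⟨C, hC, hA⟩ := mainA hc r
  obtain ⟨C', hC', hB⟩ := many (K := (1 + c ^ 18) ^ 5) (by
    refine one_le_pow₀ ?_
    linarith [pow_pos hc0 18]) r
  refine ⟨C * C' * Real.sqrt 3 ^ r, by positivity, ?_⟩
  intro n x B W H a b hW hW4 hH ha hb g hg
  obtain ⟨I, hI⟩ : ∃ I : Finset (Finset Edg), I = (LC W H a b).image (Lo a) := ⟨_, rfl⟩
  have hmem : ∀ F ∈ LC W H a b, Lo a F ∈ I := fun F hF => by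
    rw [hI]
    exact mem_image_of_mem _ hF
  have hsplit : ∀ f : Finset Edg → ℝ, ∑ F ∈ LC W H a b, f F =
      ∑ L ∈ I, ∑ F ∈ LC W H a b, (if Lo a F = L then 1 else 0) * f F := by
    intro f
    rw [sum_comm]
    refine sum_congr rfl fun F hF => ?_
    rw [← sum_mul, sum_ite_eq, if_pos (hmem F hF), one_mul]
  have h1 : |∑ F ∈ LC W H a b, wt n x a F * Seq.D 4 r (g (Lo a F)) (Pt a F).card| ≤
      C * ∑ F ∈ LC W H a b, wt n x a F * (1 / Real.sqrt ((Gl W H a b F).card + 1) ^ r) := by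
    rw [hsplit, hsplit (fun F => wt n x a F * (1 / Real.sqrt ((Gl W H a b F).card + 1) ^ r)),
      mul_sum]
    refine (abs_sum_le_sum_abs _ _).trans (sum_le_sum fun L _ => ?_)
    have h2 := hA n x B W H a b ha hb (fun L' => if L' = L then 1 else 0) (fun L' => by
      split_ifs
      · exact zero_le_one
      · exact le_rfl) (g L) (hg L)
    have e1 : ∑ F ∈ LC W H a b, wt n x a F * ((fun L' => if L' = L then (1 : ℝ) else 0) (Lo a F) *
        Seq.D 4 r (g L) (Pt a F).card) = ∑ F ∈ LC W H a b, (if Lo a F = L then (1 : ℝ) else 0) *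
          (wt n x a F * Seq.D 4 r (g (Lo a F)) (Pt a F).card) := by
      refine sum_congr rfl fun F _ => ?_
      by_cases h3 : Lo a F = L
      · simp only [h3, if_true]
        ring
      · simp only [h3, if_false]
        ring
    have e2 : ∑ F ∈ LC W H a b, wt n x a F * ((fun L' => if L' = L then (1 : ℝ) else 0) (Lo a F) /
        Real.sqrt ((Gl W H a b F).card + 1) ^ r) =
        ∑ F ∈ LC W H a b, (if Lo a F = L then (1 : ℝ) else 0) *
          (wt n x a F * (1 / Real.sqrt ((Gl W H a b F).card + 1) ^ r)) := by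
      refine sum_congr rfl fun F _ => ?_
      by_cases h3 : Lo a F = L
      · simp only [h3, if_true]
        ring
      · simp only [h3, if_false]
        ring
    rw [e1, e2] at h2
    exact h2
  have h2 := hB _ _ _ _ _ _ _ (explLO hW hW4 ha hb B) (fun F => (Gl W H a b F).card)
    (Jn H) (Jn H) (fun F hF => suc_le hW hW4 ha hb hF _) (fun F hF => tch_eq F)
  have hZ : 0 ≤ ∑ F ∈ LC W H a b, wt n x a F := sum_nonneg (fun F _ => (wt_pos B a F).le)
  have hJ : (H : ℝ) ≤ 3 * ((Jn H : ℝ) + 1) := by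
    have : H ≤ 3 * (Jn H + 1) := by
      unfold Jn
      omega
    exact_mod_cast this
  have hH0 : (0 : ℝ) < H := by exact_mod_cast hH
  have h4 : Real.sqrt H ^ r ≤ Real.sqrt 3 ^ r * Real.sqrt ((Jn H : ℝ) + 1) ^ r := by
    rw [← mul_pow, ← Real.sqrt_mul (by norm_num)]
    exact pow_le_pow_left₀ (Real.sqrt_nonneg _) (Real.sqrt_le_sqrt hJ) _
  have h5 : C' / Real.sqrt ((Jn H : ℝ) + 1) ^ r ≤ C' * Real.sqrt 3 ^ r / Real.sqrt H ^ r := by
    rw [div_le_div_iff₀ (pow_pos (Real.sqrt_pos.2 (by positivity)) _)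
      (pow_pos (Real.sqrt_pos.2 hH0) _)]
    calc C' * Real.sqrt H ^ r ≤ C' * (Real.sqrt 3 ^ r * Real.sqrt ((Jn H : ℝ) + 1) ^ r) :=
          mul_le_mul_of_nonneg_left h4 hC'.le
      _ = _ := by ring
  calc _ ≤ C * ∑ F ∈ LC W H a b, wt n x a F *
        (1 / Real.sqrt ((Gl W H a b F).card + 1) ^ r) := h1
    _ ≤ C * (C' / Real.sqrt ((Jn H : ℝ) + 1) ^ r * ∑ F ∈ LC W H a b, wt n x a F) :=
        mul_le_mul_of_nonneg_left h2 hC.le
    _ ≤ C * (C' * Real.sqrt 3 ^ r / Real.sqrt H ^ r * ∑ F ∈ LC W H a b, wt n x a F) :=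
        mul_le_mul_of_nonneg_left (mul_le_mul_of_nonneg_right h5 hZ) hC.le
    _ = _ := by ring

end

end Pool.Agent.U198.LO
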