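import Pool.Agent.U198.LO.Slots

/-!
# The number of steps of the path of the loop model: all orders
-/

set_option autoImplicit false
set_option linter.unusedVariables false

namespace Pool.Agent.U198.LO

open H974 Finset
open Pool.Agent.U198.FK (Fl mem_Fl Expl expl nT)
open scoped Classical

noncomputable section

/-- many tests give many slots -/
theorem many {K : ℝ} (hK1 : 1 ≤ K) (r : ℕ) : ∃ C : ℝ, 0 < C ∧ ∀ (α κ : Type) (Ω : Finset α)
    (w : α → ℝ) (key : ℕ → α → κ) (tch suc : ℕ → α → Prop), Expl Ω w key tch suc K →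
    ∀ (S : α → ℕ) (M N : ℕ), (∀ F ∈ Ω, nT suc 0 N F ≤ S F) → (∀ F ∈ Ω, M ≤ nT tch 0 N F) →
    ∑ F ∈ Ω, w F * (1 / Real.sqrt (S F + 1) ^ r) ≤
      C / Real.sqrt (M + 1) ^ r * ∑ F ∈ Ω, w F := by
  have hK0 : 0 < K := by linarith
  obtain ⟨Λ, hΛ⟩ : ∃ Λ : ℝ, Λ = 1 / (1 - (1 - 1 / 2) / K) := ⟨_, rfl⟩
  have hden : 0 < 1 - (1 - 1 / 2) / K := by
    have : (1 - 1 / 2) / K ≤ 1 / 2 := by
      rw [div_le_iff₀ hK0]
      linarith
    linarith
  have hden1 : 1 - (1 - 1 / 2) / K < 1 := by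
    have : 0 < (1 - 1 / 2) / K := by
      apply div_pos _ hK0
      norm_num
    linarith
  have hΛ1 : 1 < Λ := by
    rw [hΛ, lt_div_iff₀ hden]
    linarith
  have hΛ0 : 0 < Λ := by linarith
  have hΛK : Λ * (1 - (1 - 1 / 2) / K) ≤ 1 := by
    rw [hΛ, one_div_mul_cancel hden.ne']
  obtain ⟨lam, hlam⟩ : ∃ lam : ℝ, lam = Real.sqrt Λ := ⟨_, rfl⟩
  have hlam1 : 1 < lam := by
    rw [hlam, Real.lt_sqrt (by norm_num)]
    linarith
  have hlam0 : 0 < lam := by linarith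
  have hlam2 : Λ = lam ^ 2 := by rw [hlam, Real.sq_sqrt hΛ0.le]
  obtain ⟨a', ha'⟩ := pow_unbounded_of_one_lt (2 : ℝ) hlam1
  obtain ⟨a, ha⟩ : ∃ a, a = a' + 1 := ⟨_, rfl⟩
  have ha2 : 2 ≤ lam ^ a := by
    rw [ha, pow_succ]
    nlinarith [pow_pos hlam0 a']
  have haR : (1 : ℝ) ≤ a := by rw [ha]; push_cast; linarith [Nat.cast_nonneg (α := ℝ) a']
  obtain ⟨C', hC', hexp⟩ : ∃ C : ℝ, 0 < C ∧ ∀ v : ℕ, ((v : ℝ) + 1) ^ r ≤ C * lam ^ v := by
    have h1 := tendsto_pow_const_div_const_pow_of_one_lt r hlam1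
    obtain ⟨B, hB⟩ := h1.bddAbove_range
    have hB' : ∀ n : ℕ, (n : ℝ) ^ r / lam ^ n ≤ B := fun n => hB ⟨n, rfl⟩
    refine ⟨(|B| + 1) * lam ^ 1, by positivity, fun v => ?_⟩
    have h2 := hB' (v + 1)
    rw [div_le_iff₀ (pow_pos hlam0 _)] at h2
    push_cast at h2
    calc ((v : ℝ) + 1) ^ r ≤ B * lam ^ (v + 1) := h2
      _ ≤ (|B| + 1) * lam ^ (v + 1) :=
        mul_le_mul_of_nonneg_right (by linarith [le_abs_self B]) (pow_pos hlam0 _).le
      _ = _ := by rw [pow_add]; ring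
  refine ⟨Real.sqrt a ^ r + C', by positivity, ?_⟩
  intro α κ Ω w key tch suc hE S M N hS hM
  have h1 := expl hE (θ := 1 / 2) (Λ := Λ) (by norm_num) (by norm_num) hΛ0.le hK0 hΛK N
  have hM0 : (0 : ℝ) < (M : ℝ) + 1 := by positivity
  have hsM : 0 < Real.sqrt ((M : ℝ) + 1) ^ r := pow_pos (Real.sqrt_pos.2 hM0) _
  have hterm : ∀ F ∈ Ω, 1 / Real.sqrt (S F + 1) ^ r ≤
      Real.sqrt a ^ r / Real.sqrt (M + 1) ^ r +
        (C' / Real.sqrt (M + 1) ^ r) *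
          ((1 / 2) ^ nT suc 0 N F * Λ ^ nT tch 0 N F) := by
    intro F hF
    have hS0 : (0 : ℝ) < (S F : ℝ) + 1 := by positivity
    have hsS : 0 < Real.sqrt ((S F : ℝ) + 1) ^ r := pow_pos (Real.sqrt_pos.2 hS0) _
    have hp1 : 0 ≤ (C' / Real.sqrt (M + 1) ^ r) * ((1 / 2 : ℝ) ^ nT suc 0 N F *
      Λ ^ nT tch 0 N F) := by positivity
    have hp2 : 0 ≤ Real.sqrt a ^ r / Real.sqrt (M + 1) ^ r := by positivity
    rcases Nat.lt_or_ge M (a * (S F + 1)) with hgood | hbad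
    · have h2 : (M : ℝ) + 1 ≤ a * ((S F : ℝ) + 1) := by exact_mod_cast hgood
      have h4 : Real.sqrt ((M : ℝ) + 1) ≤ Real.sqrt a * Real.sqrt ((S F : ℝ) + 1) := by
        rw [← Real.sqrt_mul (by positivity)]
        exact Real.sqrt_le_sqrt h2
      have h5 : Real.sqrt ((M : ℝ) + 1) ^ r ≤
          Real.sqrt a ^ r * Real.sqrt ((S F : ℝ) + 1) ^ r := by
        rw [← mul_pow]
        exact pow_le_pow_left₀ (Real.sqrt_nonneg _) h4 _
      have h8 : 1 / Real.sqrt ((S F : ℝ) + 1) ^ r ≤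
          Real.sqrt a ^ r / Real.sqrt (M + 1) ^ r := by
        rw [div_le_div_iff₀ hsS hsM, one_mul]
        exact h5
      linarith
    · have hMS : a * S F ≤ M := by
        rw [Nat.mul_add] at hbad
        omega
      have h2 : 1 / Real.sqrt ((S F : ℝ) + 1) ^ r ≤ 1 := by
        rw [div_le_one hsS]
        refine one_le_pow₀ ?_
        rw [Real.one_le_sqrt]
        linarith [Nat.cast_nonneg (α := ℝ) (S F)]
      have h3 := hS F hF
      have h4 := hM F hF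
      have h5 : (1 / 2 : ℝ) ^ S F ≤ (1 / 2 : ℝ) ^ nT suc 0 N F :=
        pow_le_pow_of_le_one (by norm_num) (by norm_num) h3
      have h6 : Λ ^ M ≤ Λ ^ nT tch 0 N F := pow_le_pow_right₀ hΛ1.le h4
      have h7 : (1 / 2 : ℝ) ^ S F * Λ ^ M ≤
          (1 / 2 : ℝ) ^ nT suc 0 N F * Λ ^ nT tch 0 N F :=
        mul_le_mul h5 h6 (by positivity) (by positivity)
      have h8 : (2 : ℝ) ^ S F ≤ lam ^ M := by
        calc (2 : ℝ) ^ S F ≤ (lam ^ a) ^ S F := pow_le_pow_left₀ (by norm_num) ha2 _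
          _ = lam ^ (a * S F) := by rw [pow_mul]
          _ ≤ lam ^ M := pow_le_pow_right₀ hlam1.le hMS
      have h9 : lam ^ M ≤ (1 / 2 : ℝ) ^ S F * Λ ^ M := by
        rw [hlam2, ← pow_mul, mul_comm 2 M, pow_mul, sq, one_div, inv_pow,
          inv_mul_eq_div, le_div_iff₀ (by positivity), mul_comm]
        exact mul_le_mul_of_nonneg_right h8 (by positivity)
      have h10 : Real.sqrt ((M : ℝ) + 1) ^ r ≤ C' * lam ^ M := by
        refine le_trans ?_ (hexp M)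
        refine pow_le_pow_left₀ (Real.sqrt_nonneg _) ?_ _
        rw [Real.sqrt_le_left (by positivity)]
        nlinarith [Nat.cast_nonneg (α := ℝ) M]
      have h11 : 1 ≤ (C' / Real.sqrt (M + 1) ^ r) *
          ((1 / 2 : ℝ) ^ nT suc 0 N F * Λ ^ nT tch 0 N F) := by
        rw [div_mul_eq_mul_div, le_div_iff₀ hsM, one_mul]
        exact h10.trans (mul_le_mul_of_nonneg_left (h9.trans h7) hC'.le)
      linarith
  calc ∑ F ∈ Ω, w F * (1 / Real.sqrt (S F + 1) ^ r) ≤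
      ∑ F ∈ Ω, (w F * (Real.sqrt a ^ r / Real.sqrt (M + 1) ^ r) +
        (C' / Real.sqrt (M + 1) ^ r) *
          (w F * ((1 / 2) ^ nT suc 0 N F * Λ ^ nT tch 0 N F))) := by
        refine sum_le_sum fun F hF => ?_
        refine (mul_le_mul_of_nonneg_left (hterm F hF) (hE.w0 F hF)).trans (le_of_eq ?_)
        ring
    _ = (∑ F ∈ Ω, w F) * (Real.sqrt a ^ r / Real.sqrt (M + 1) ^ r) +
        (C' / Real.sqrt (M + 1) ^ r) * ∑ F ∈ Ω,
          (w F * ((1 / 2) ^ nT suc 0 N F * Λ ^ nT tch 0 N F)) := by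
        rw [sum_add_distrib, ← mul_sum, ← sum_mul]
    _ ≤ (∑ F ∈ Ω, w F) * (Real.sqrt a ^ r / Real.sqrt (M + 1) ^ r) +
        (C' / Real.sqrt (M + 1) ^ r) * ∑ F ∈ Ω, w F := by
        have h2 : 0 ≤ C' / Real.sqrt ((M : ℝ) + 1) ^ r := by positivity
        have := mul_le_mul_of_nonneg_left h1 h2
        linarith
    _ = _ := by ring

variable {W H : ℕ} {a b : Vtx}

open Pool.Agent.N929.EG in
theorem Pl_eq {α σ : Type} (Y : TS α σ) (w : α) (G : Finset σ)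
    (h : ∀ y, y ∈ G ↔ (y ∈ Y.S w ∨ y ∈ Y.B w)) : (Pl' Y ∅ w).card = G.card := by
  congr 1
  ext y
  unfold Pl'
  rw [mem_sdiff, mem_union, h]
  constructor
  · rintro ⟨h, _⟩
    exact h
  · intro h
    exact ⟨h, notMem_empty y⟩

open Pool.Agent.N929.EG in
theorem card_Pl (ha : a.2 = 0) (hb : b.2 = H) (F : Finset Edg) :
    (Pl' (TSl W H a b ha hb) ∅ F).card = (Gl W H a b F).card := by
  refine Pl_eq _ _ _ (fun y => ?_)
  show y ∈ Fl (SB W H) (fun q => (∃ e, Sw W H a b F q e) ∨ ∃ e, Sw W H a b (fp F q) q e) ↔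
    (y ∈ Fl (SB W H) (fun q => ∃ e, Sw W H a b F q e) ∨
    y ∈ Fl (SB W H) (fun q => ∃ e, Sw W H a b (fp F q) q e))
  rw [mem_Fl, mem_Fl, mem_Fl]
  constructor
  · rintro ⟨h1, h2 | h2⟩
    · exact Or.inl ⟨h1, h2⟩
    · exact Or.inr ⟨h1, h2⟩
  · rintro (h | h)
    · exact ⟨h.1, Or.inl h.2⟩
    · exact ⟨h.1, Or.inr h.2⟩

open Pool.Agent.N929.EG in
/-- the differences are small if there are many slots -/
theorem mainA {c : ℝ} (hc : 1 ≤ c) (r : ℕ) : ∃ C : ℝ, 0 < C ∧ ∀ n x : ℝ, Bd c n x →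
    ∀ (W H : ℕ) (a b : Vtx), a.2 = 0 → b.2 = H → ∀ G : Finset Edg → ℝ, (∀ L, 0 ≤ G L) →
    ∀ g : ℕ → ℝ, (∀ m, |g m| ≤ 1) →
    |∑ F ∈ LC W H a b, wt n x a F * (G (Lo a F) * Seq.D 4 r g (Pt a F).card)| ≤
      C * ∑ F ∈ LC W H a b, wt n x a F *
        (G (Lo a F) / Real.sqrt ((Gl W H a b F).card + 1) ^ r) := by
  have hc0 : 0 < c := by linarith
  obtain ⟨C, hC, h⟩ := gc (c := (1 + c ^ 4) * c ^ 2) (by positivity) 4 15 r
  refine ⟨C, hC, ?_⟩
  intro n x B W H a b ha hb G hG g hg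
  have hx0 := B.x0
  obtain ⟨N, hN⟩ : ∃ N, N = (LC W H a b).sup (fun F => (Pt a F).card) := ⟨_, rfl⟩
  have hNle : ∀ F ∈ LC W H a b, (Pt a F).card ≤ N := by
    intro F hF
    rw [hN]
    exact Finset.le_sup (f := fun F => (Pt a F).card) hF
  obtain ⟨Φ, hΦ⟩ : ∃ Φ : Finset Edg → ℝ, Φ = fun F =>
    if F ∈ LC W H a b then G (Lo a F) * (wt n x a F / x ^ (Pt a F).card) else 0 := ⟨_, rfl⟩
  have hcx : (1 + x ^ 4) / Real.sqrt (x ^ 4) ≤ (1 + c ^ 4) * c ^ 2 := by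
    have h1 : Real.sqrt (x ^ 4) = x ^ 2 := by
      rw [show x ^ 4 = (x ^ 2) ^ 2 by ring, Real.sqrt_sq (by positivity)]
    rw [h1, div_le_iff₀ (by positivity)]
    have h2 : x ^ 4 ≤ c ^ 4 := pow_le_pow_left₀ hx0.le B.xc 4
    have h3 : 1 ≤ (c * x) ^ 2 := one_le_pow₀ B.xcc
    have h4 : 0 < c ^ 4 := by positivity
    calc 1 + x ^ 4 ≤ (1 + c ^ 4) * 1 := by linarith
      _ ≤ (1 + c ^ 4) * (c * x) ^ 2 := mul_le_mul_of_nonneg_left h3 (by positivity)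
      _ = _ := by ring
  have h1 := h x hx0 hcx _ _ (TSl W H a b ha hb) rfl (le_refl 15) N (by
    intro m hm
    rw [← Finset.not_nonempty_iff_eq_empty]
    rintro ⟨F, hF⟩
    have hF' : F ∈ Fl (LC W H a b) (fun F => (Pt a F).card = m) := hF
    obtain ⟨h2, h3⟩ := mem_Fl.1 hF'
    have := hNle F h2
    omega) ∅ Φ g (by
    intro F
    rw [hΦ]
    show 0 ≤ if F ∈ LC W H a b then G (Lo a F) * (wt n x a F / x ^ (Pt a F).card) else 0
    split_ifs with h2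
    · exact mul_nonneg (hG _) (div_nonneg (wt_pos B a F).le (by positivity))
    · exact le_rfl) (by
    intro m F hF y hy _
    have hF' : F ∈ Fl (LC W H a b) (fun F => (Pt a F).card = m) := hF
    have hy' : y ∈ Fl (SB W H) (fun q => ∃ e, Sw W H a b F q e) := hy
    obtain ⟨h2, h3⟩ := mem_Fl.1 hF'
    obtain ⟨h4, e, h5⟩ := mem_Fl.1 hy'
    show Φ (fp F y) = Φ F
    have h6 := fp_LC h2 (mem_SB.1 h4).1
    rw [hΦ]
    show (if fp F y ∈ LC W H a b then G (Lo a (fp F y)) *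
      (wt n x a (fp F y) / x ^ (Pt a (fp F y)).card) else 0) =
      if F ∈ LC W H a b then G (Lo a F) * (wt n x a F / x ^ (Pt a F).card) else 0
    rw [if_pos h6, if_pos h2, h5.lo, h5.pt_card]
    unfold wt
    rw [h5.card, h5.ls, pow_add, pow_add]
    have hxl : x ^ (Pt a F).card ≠ 0 := pow_ne_zero _ hx0.ne'
    congr 1
    field_simp) hg
  have hAll : All (TSl W H a b ha hb) N = LC W H a b := by
    ext F
    rw [mem_All]
    constructor
    · rintro ⟨h2, _⟩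
      have h3 : F ∈ Fl (LC W H a b) (fun F' => (Pt a F').card = (Pt a F).card) := h2
      exact (mem_Fl.1 h3).1
    · intro h2
      refine ⟨?_, hNle F h2⟩
      show F ∈ Fl (LC W H a b) (fun F' => (Pt a F').card = (Pt a F).card)
      exact mem_Fl.2 ⟨h2, rfl⟩
  rw [hAll] at h1
  have e1 : ∑ F ∈ LC W H a b, x ^ (TSl W H a b ha hb).len F *
      (Φ F * Seq.D 4 r g ((TSl W H a b ha hb).len F)) =
      ∑ F ∈ LC W H a b, wt n x a F * (G (Lo a F) * Seq.D 4 r g (Pt a F).card) := by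
    refine sum_congr rfl fun F hF => ?_
    have hl : (TSl W H a b ha hb).len F = (Pt a F).card := rfl
    have hxl : x ^ (Pt a F).card ≠ 0 := pow_ne_zero _ hx0.ne'
    rw [hΦ, hl]
    simp only [if_pos hF]
    field_simp
  have e2 : ∑ F ∈ LC W H a b, x ^ (TSl W H a b ha hb).len F *
      (Φ F / Real.sqrt (((Pl' (TSl W H a b ha hb) ∅ F).card : ℝ) + 1) ^ r) =
      ∑ F ∈ LC W H a b, wt n x a F *
        (G (Lo a F) / Real.sqrt ((Gl W H a b F).card + 1) ^ r) := by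
    refine sum_congr rfl fun F hF => ?_
    have hl : (TSl W H a b ha hb).len F = (Pt a F).card := rfl
    have hxl : x ^ (Pt a F).card ≠ 0 := pow_ne_zero _ hx0.ne'
    rw [hΦ, hl, card_Pl]
    simp only [if_pos hF]
    field_simp
  rw [e1, e2] at h1
  exact h1

/-- **all orders** -/
theorem main {c : ℝ} (hc : 1 ≤ c) (r : ℕ) : ∃ C : ℝ, 0 < C ∧ ∀ n x : ℝ, Bd c n x →
    ∀ (W H : ℕ) (a b : Vtx), Even W → 4 ≤ W → 1 ≤ H → a.2 = 0 → b.2 = H →
    ∀ G : Finset Edg → ℝ, (∀ L, 0 ≤ G L ∧ G L ≤ 1) → ∀ g : ℕ → ℝ, (∀ m, |g m| ≤ 1) →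
    |∑ F ∈ LC W H a b, wt n x a F *
      (G (Lo a F) * Pool.Agent.N929.EG.Seq.D 4 r g (Pt a F).card)| ≤
      C / Real.sqrt H ^ r * ∑ F ∈ LC W H a b, wt n x a F := by
  have hc0 : 0 < c := by linarith
  obtain ⟨C, hC, hA⟩ := mainA hc r
  obtain ⟨C', hC', hB⟩ := many (K := (1 + c ^ 18) ^ 5) (by
    refine one_le_pow₀ ?_
    linarith [pow_pos hc0 18]) r
  refine ⟨C * C' * Real.sqrt 3 ^ r, by positivity, ?_⟩
  intro n x B W H a b hW hW4 hH ha hb G hG g hg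
  have h1 := hA n x B W H a b ha hb G (fun L => (hG L).1) g hg
  have h2 := hB _ _ _ _ _ _ _ (explLO hW hW4 ha hb B) (fun F => (Gl W H a b F).card)
    (Jn H) (Jn H) (fun F hF => suc_le hW hW4 ha hb hF _) (fun F hF => tch_eq F)
  have h3 : ∑ F ∈ LC W H a b, wt n x a F *
      (G (Lo a F) / Real.sqrt ((Gl W H a b F).card + 1) ^ r) ≤
      ∑ F ∈ LC W H a b, wt n x a F * (1 / Real.sqrt ((Gl W H a b F).card + 1) ^ r) := by
    refine sum_le_sum fun F _ => mul_le_mul_of_nonneg_left ?_ (wt_pos B a F).le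
    exact div_le_div_of_nonneg_right (hG _).2 (by positivity)
  have hZ : 0 ≤ ∑ F ∈ LC W H a b, wt n x a F := sum_nonneg (fun F _ => (wt_pos B a F).le)
  have hJ : (H : ℝ) ≤ 3 * ((Jn H : ℝ) + 1) := by
    have : H ≤ 3 * (Jn H + 1) := by
      unfold Jn
      omega
    exact_mod_cast this
  have hH0 : (0 : ℝ) < H := by exact_mod_cast hH
  have h4 : Real.sqrt H ^ r ≤ Real.sqrt 3 ^ r * Real.sqrt ((Jn H : ℝ) + 1) ^ r := by
    rw [← mul_pow, ← Real.sqrt_mul (by norm_num)]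
    exact pow_le_pow_left₀ (Real.sqrt_nonneg _) (Real.sqrt_le_sqrt hJ) _
  have h5 : C' / Real.sqrt ((Jn H : ℝ) + 1) ^ r ≤ C' * Real.sqrt 3 ^ r / Real.sqrt H ^ r := by
    rw [div_le_div_iff₀ (pow_pos (Real.sqrt_pos.2 (by positivity)) _)
      (pow_pos (Real.sqrt_pos.2 hH0) _)]
    calc C' * Real.sqrt H ^ r ≤ C' * (Real.sqrt 3 ^ r * Real.sqrt ((Jn H : ℝ) + 1) ^ r) :=
          mul_le_mul_of_nonneg_left h4 hC'.le
      _ = _ := by ring
  calc _ ≤ C * ∑ F ∈ LC W H a b, wt n x a F *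
        (G (Lo a F) / Real.sqrt ((Gl W H a b F).card + 1) ^ r) := h1
    _ ≤ C * (C' / Real.sqrt ((Jn H : ℝ) + 1) ^ r * ∑ F ∈ LC W H a b, wt n x a F) :=
        mul_le_mul_of_nonneg_left (h3.trans h2) hC.le
    _ ≤ C * (C' * Real.sqrt 3 ^ r / Real.sqrt H ^ r * ∑ F ∈ LC W H a b, wt n x a F) :=
        mul_le_mul_of_nonneg_left (mul_le_mul_of_nonneg_right h5 hZ) hC.le
    _ = _ := by ring

end

end Pool.Agent.U198.LO
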