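import Pool.Agent.U198.LO.Geo

/-!
# Flipping a hexagon at the path
-/

set_option autoImplicit false
set_option linter.unusedVariables false

namespace Pool.Agent.U198.LO

open H974 Finset
open Pool.Agent.U198.FK (Fl mem_Fl)
open scoped Classical

noncomputable section

/-- the vertices of a hexagon -/
def hV (q v : Vtx) : Prop := (q.1 - 1 ≤ v.1 ∧ v.1 ≤ q.1 + 1) ∧ (v.2 = q.2 ∨ v.2 = q.2 + 1)

theorem hx_hV {q : Vtx} {e : Edg} (he : e ∈ hx q) : hV q (src e) ∧ hV q (tgt e) := by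
  obtain ⟨x, y, b⟩ := e
  unfold hV
  cases b
  · rw [mem_hx_false] at he
    simp only [src_mk, tgt_false]
    omega
  · rw [mem_hx_true] at he
    simp only [src_mk, tgt_true]
    omega

theorem hreach {G : Set Edg} {q : Vtx} {e : Edg} (he : e ∈ hx q)
    (hG : ∀ f ∈ hx q, f ≠ e → f ∈ G) : ∀ v, hV q v → Reach G q v := by
  obtain ⟨x, y⟩ := q
  have a1 : ((x - 1, y, true) : Edg) ≠ e → Reach G (x - 1, y) (x, y) := by
    intro h
    refine Adj.reach ⟨_, hG _ (by rw [mem_hx_true]; simp) h, Or.inl ⟨rfl, ?_⟩⟩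
    simp
  have a2 : ((x, y, true) : Edg) ≠ e → Reach G (x, y) (x + 1, y) := by
    intro h
    exact Adj.reach ⟨_, hG _ (by rw [mem_hx_true]; simp) h, Or.inl ⟨rfl, by simp⟩⟩
  have a3 : ((x - 1, y, false) : Edg) ≠ e → Reach G (x - 1, y) (x - 1, y + 1) := by
    intro h
    exact Adj.reach ⟨_, hG _ (by rw [mem_hx_false]; simp) h, Or.inl ⟨rfl, by simp⟩⟩
  have a4 : ((x + 1, y, false) : Edg) ≠ e → Reach G (x + 1, y) (x + 1, y + 1) := by
    intro h
    exact Adj.reach ⟨_, hG _ (by rw [mem_hx_false]; simp) h, Or.inl ⟨rfl, by simp⟩⟩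
  have a5 : ((x - 1, y + 1, true) : Edg) ≠ e → Reach G (x - 1, y + 1) (x, y + 1) := by
    intro h
    exact Adj.reach ⟨_, hG _ (by rw [mem_hx_true]; simp) h, Or.inl ⟨rfl, by simp⟩⟩
  have a6 : ((x, y + 1, true) : Edg) ≠ e → Reach G (x, y + 1) (x + 1, y + 1) := by
    intro h
    exact Adj.reach ⟨_, hG _ (by rw [mem_hx_true]; simp) h, Or.inl ⟨rfl, by simp⟩⟩
  have key : Reach G (x, y) (x - 1, y) ∧ Reach G (x, y) (x + 1, y) ∧
      Reach G (x, y) (x - 1, y + 1) ∧ Reach G (x, y) (x + 1, y + 1) ∧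
      Reach G (x, y) (x, y + 1) := by
    have n1 : (x - 1 : ℤ) ≠ x := by omega
    have n2 : (x - 1 : ℤ) ≠ x + 1 := by omega
    have n3 : (y : ℤ) ≠ y + 1 := by omega
    rcases mem_hx.1 he with rfl | rfl | rfl | rfl | rfl | rfl
    · have r2 := a2 (by simp; omega)
      have r3 := a3 (by simp)
      have r4 := a4 (by simp)
      have r5 := a5 (by simp)
      have r6 := a6 (by simp)
      have tE := r2.trans r4
      have tF := tE.trans r6.symm
      have tD := tF.trans r5.symm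
      exact ⟨tD.trans r3.symm, r2, tD, tE, tF⟩
    · have r1 := a1 (by simp)
      have r3 := a3 (by simp)
      have r4 := a4 (by simp)
      have r5 := a5 (by simp)
      have r6 := a6 (by simp)
      have tA := r1.symm
      have tD := tA.trans r3
      have tF := tD.trans r5
      have tE := tF.trans r6
      exact ⟨tA, tE.trans r4.symm, tD, tE, tF⟩
    · have r1 := a1 (by simp)
      have r2 := a2 (by simp)
      have r4 := a4 (by simp; omega)
      have r5 := a5 (by simp)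
      have r6 := a6 (by simp)
      have tE := r2.trans r4
      have tF := tE.trans r6.symm
      exact ⟨r1.symm, r2, tF.trans r5.symm, tE, tF⟩
    · have r1 := a1 (by simp)
      have r2 := a2 (by simp)
      have r3 := a3 (by simpa using n2)
      have r5 := a5 (by simp)
      have r6 := a6 (by simp)
      have tD := r1.symm.trans r3
      have tF := tD.trans r5
      exact ⟨r1.symm, r2, tD, tF.trans r6, tF⟩
    · have r1 := a1 (by simp)
      have r2 := a2 (by simp)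
      have r3 := a3 (by simp)
      have r4 := a4 (by simp)
      have r6 := a6 (by simp; omega)
      have tE := r2.trans r4
      exact ⟨r1.symm, r2, r1.symm.trans r3, tE, tE.trans r6.symm⟩
    · have r1 := a1 (by simp)
      have r2 := a2 (by simp)
      have r3 := a3 (by simp)
      have r4 := a4 (by simp)
      have r5 := a5 (by simp)
      have tD := r1.symm.trans r3
      exact ⟨r1.symm, r2, tD, r2.trans r4, tD.trans r5⟩
  obtain ⟨kA, kC, kD, kE, kF⟩ := key
  rintro ⟨vx, vy⟩ ⟨h1, h2⟩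
  simp only at h1 h2
  have h3 : vx = x - 1 ∨ vx = x ∨ vx = x + 1 := by omega
  rcases h3 with rfl | rfl | rfl <;> rcases h2 with rfl | rfl
  · exact kA
  · exact kD
  · exact Reach.refl _ _
  · exact kF
  · exact kC
  · exact kE

/-- the hexagons away from the lowest and the highest row -/
def SB (W H : ℕ) : Finset Vtx := (HB W H).filter (fun q => 1 ≤ q.2 ∧ q.2 + 2 ≤ H)

theorem mem_SB {W H : ℕ} {q : Vtx} : q ∈ SB W H ↔ q ∈ HB W H ∧ 1 ≤ q.2 ∧ q.2 + 2 ≤ H := by
  unfold SB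
  rw [mem_filter]

variable {W H : ℕ} {a b : Vtx}

/-- at the vertices which are not on the edge `e` there is no edge of `F` -/
theorem iso (ha : a.2 = 0) (hb : b.2 = H) {F : Finset Edg} (hF : F ∈ LC W H a b) {q : Vtx}
    (hq : q ∈ SB W H) {e : Edg} (he : F ∩ hx q = {e}) {v : Vtx} (hv : hV q v)
    (h1 : v ≠ src e) (h2 : v ≠ tgt e) : ∀ f ∈ F, src f ≠ v ∧ tgt f ≠ v := by
  obtain ⟨hqB, hq1, hq2⟩ := mem_SB.1 hq
  obtain ⟨_, k, hk⟩ := mem_HB.1 hqB
  obtain ⟨vx, vy⟩ := v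
  obtain ⟨hv1, hv2⟩ := hv
  simp only at hv1 hv2
  have hva : ((vx, vy) : Vtx) ≠ a := by
    rintro rfl
    simp only at ha
    omega
  have hvb : ((vx, vy) : Vtx) ≠ b := by
    rintro rfl
    simp only at hb
    omega
  have hin : ∀ f, f ∈ hx q → (src f = (vx, vy) ∨ tgt f = (vx, vy)) → f ∉ F := by
    intro f h3 h4 h5
    have h6 : f ∈ F ∩ hx q := mem_inter.2 ⟨h5, h3⟩
    rw [he, mem_singleton] at h6
    subst h6
    rcases h4 with h4 | h4
    · exact h1 h4.symm
    · exact h2 h4.symm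
  have hs2 : src ((vx, vy, true) : Edg) = (vx, vy) := rfl
  have hs1 : tgt ((vx - 1, vy, true) : Edg) = (vx, vy) := by simp
  have main : ∀ s3 : Edg, (src s3 = (vx, vy) ∨ tgt s3 = (vx, vy)) →
      ((Odd (vx + vy) ∧ s3 = (vx, vy - 1, false)) ∨ (Even (vx + vy) ∧ s3 = (vx, vy, false))) →
      (((vx - 1, vy, true) : Edg) ∈ hx q ∧ ((vx, vy, true) : Edg) ∈ hx q) ∨
        (((vx - 1, vy, true) : Edg) ∈ hx q ∧ s3 ∈ hx q) ∨
        (((vx, vy, true) : Edg) ∈ hx q ∧ s3 ∈ hx q) →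
      ∀ f ∈ F, src f ≠ (vx, vy) ∧ tgt f ≠ (vx, vy) := by
    intro s3 h3 h4 h5
    obtain ⟨p1, p2⟩ := par3 hF hva hvb h4 rfl rfl
    have k1 : ((vx - 1, vy, true) : Edg) ∈ hx q → ((vx - 1, vy, true) : Edg) ∉ F :=
      fun h => hin _ h (Or.inr hs1)
    have k2 : ((vx, vy, true) : Edg) ∈ hx q → ((vx, vy, true) : Edg) ∉ F :=
      fun h => hin _ h (Or.inl hs2)
    have k3 : s3 ∈ hx q → s3 ∉ F := fun h => hin _ h h3
    have hall : ((vx - 1, vy, true) : Edg) ∉ F ∧ ((vx, vy, true) : Edg) ∉ F ∧ s3 ∉ F := by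
      rcases h5 with ⟨h5, h6⟩ | ⟨h5, h6⟩ | ⟨h5, h6⟩
      · have m1 := k1 h5
        have m2 := k2 h6
        rcases p1 with ⟨x1, x2, x3⟩ | ⟨x1, x2, x3⟩ | ⟨x1, x2, x3⟩ | x
        · exact absurd x1 m1
        · exact absurd x1 m1
        · exact absurd x2 m2
        · exact x
      · have m1 := k1 h5
        have m2 := k3 h6
        rcases p1 with ⟨x1, x2, x3⟩ | ⟨x1, x2, x3⟩ | ⟨x1, x2, x3⟩ | x
        · exact absurd x1 m1
        · exact absurd x1 m1
        · exact absurd x3 m2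
        · exact x
      · have m1 := k2 h5
        have m2 := k3 h6
        rcases p1 with ⟨x1, x2, x3⟩ | ⟨x1, x2, x3⟩ | ⟨x1, x2, x3⟩ | x
        · exact absurd x2 m1
        · exact absurd x3 m2
        · exact absurd x2 m1
        · exact x
    intro f hf
    rw [← not_or]
    intro h6
    rcases p2 f hf h6 with h7 | h7 | h7
    · rw [h7] at hf; exact hall.1 hf
    · rw [h7] at hf; exact hall.2.1 hf
    · rw [h7] at hf; exact hall.2.2 hf
  rcases Int.even_or_odd (vx + vy) with hpar | hpar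
  · refine main (vx, vy, false) (Or.inl rfl) (Or.inr ⟨hpar, rfl⟩) ?_
    obtain ⟨j, hj⟩ := hpar
    rw [mem_hx_true, mem_hx_true, mem_hx_false]
    omega
  · refine main (vx, vy - 1, false) (Or.inr (by simp)) (Or.inl ⟨hpar, rfl⟩) ?_
    obtain ⟨j, hj⟩ := hpar
    rw [mem_hx_true, mem_hx_true, mem_hx_false]
    omega

/-- the data of a free slot -/
structure Sw (W H : ℕ) (a b : Vtx) (F : Finset Edg) (q : Vtx) (e : Edg) : Prop where
  ha : a.2 = 0
  hb : b.2 = H
  hF : F ∈ LC W H a b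
  hq : q ∈ SB W H
  he : F ∩ hx q = {e}
  hr : Reach (↑F : Set Edg) a (src e)

namespace Sw

variable {F : Finset Edg} {q : Vtx} {e : Edg}

theorem he1 (h : Sw W H a b F q e) : e ∈ F ∧ e ∈ hx q := by
  have h1 : e ∈ F ∩ hx q := by rw [h.he]; exact mem_singleton_self e
  exact mem_inter.1 h1

theorem uniq (h : Sw W H a b F q e) {f : Edg} (h1 : f ∈ F) (h2 : f ∈ hx q) : f = e := by
  have h3 : f ∈ F ∩ hx q := mem_inter.2 ⟨h1, h2⟩
  rw [h.he, mem_singleton] at h3
  exact h3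

theorem rt (h : Sw W H a b F q e) : Reach (↑F : Set Edg) a (tgt e) :=
  h.hr.trans (Adj.reach ⟨e, Finset.mem_coe.2 h.he1.1, Or.inl ⟨rfl, rfl⟩⟩)

theorem hh (h : Sw W H a b F q e) {u v : Vtx} (hu : hV q u) (hv : hV q v) :
    Reach (↑(fp F q) : Set Edg) u v := by
  have h1 := hreach (G := (↑(fp F q) : Set Edg)) h.he1.2 (fun f hf hne =>
    Finset.mem_coe.2 (mem_fp.2 (Or.inr ⟨hf, fun h2 => hne (h.uniq h2 hf)⟩)))
  exact (h1 u hu).symm.trans (h1 v hv)

theorem up (h : Sw W H a b F q e) {u v : Vtx} (hr : Reach (↑F : Set Edg) u v) :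
    Reach (↑(fp F q) : Set Edg) u v := by
  induction hr with
  | refl => exact Reach.refl _ _
  | tail _ hs ih =>
    obtain ⟨f, hf, hs⟩ := hs
    refine ih.trans ?_
    by_cases h1 : f ∈ hx q
    · obtain ⟨h2, h3⟩ := hx_hV h1
      rcases hs with ⟨rfl, rfl⟩ | ⟨rfl, rfl⟩
      · exact h.hh h2 h3
      · exact h.hh h3 h2
    · exact Adj.reach ⟨f, Finset.mem_coe.2 (mem_fp.2 (Or.inl ⟨Finset.mem_coe.1 hf, h1⟩)), hs⟩

/-- an edge of `F` at a vertex of the hexagon starts at the path -/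
theorem touch (h : Sw W H a b F q e) {f : Edg} (hf : f ∈ F) {v : Vtx}
    (hv : src f = v ∨ tgt f = v) (hq : hV q v) : Reach (↑F : Set Edg) a v := by
  by_cases h1 : v = src e
  · rw [h1]; exact h.hr
  · by_cases h2 : v = tgt e
    · rw [h2]; exact h.rt
    · have := iso h.ha h.hb h.hF h.hq h.he hq h1 h2 f hf
      rcases hv with hv | hv
      · exact absurd hv this.1
      · exact absurd hv this.2

theorem reach (h : Sw W H a b F q e) (v : Vtx) :
    Reach (↑(fp F q) : Set Edg) a v ↔ Reach (↑F : Set Edg) a v ∨ hV q v := by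
  constructor
  · intro hr
    induction hr with
    | refl => exact Or.inl (Reach.refl _ _)
    | @tail x y _ hs ih =>
      obtain ⟨f, hf, hs⟩ := hs
      rcases mem_fp.1 (Finset.mem_coe.1 hf) with ⟨h1, h2⟩ | ⟨h1, h2⟩
      · left
        have h3 : Reach (↑F : Set Edg) a x := by
          rcases ih with ih | ih
          · exact ih
          · exact h.touch h1 (hs.elim (fun k => Or.inl k.1) (fun k => Or.inr k.2)) ih
        exact h3.trans (Adj.reach ⟨f, Finset.mem_coe.2 h1, hs⟩)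
      · right
        obtain ⟨h3, h4⟩ := hx_hV h1
        rcases hs with ⟨_, rfl⟩ | ⟨rfl, _⟩
        · exact h4
        · exact h3
  · rintro (hr | hv)
    · exact h.up hr
    · exact (h.up h.hr).trans (h.hh (hx_hV h.he1.2).1 hv)

/-- the component of a vertex away from the path and the hexagon -/
theorem away (h : Sw W H a b F q e) {v : Vtx} (hv : ¬ (Reach (↑F : Set Edg) a v ∨ hV q v)) {w : Vtx}
    (hr : Reach (↑F : Set Edg) v w) : ¬ (Reach (↑F : Set Edg) a w ∨ hV q w) := by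
  induction hr with
  | refl => exact hv
  | @tail x y _ hs ih =>
    obtain ⟨f, hf, hs⟩ := hs
    have hf' := Finset.mem_coe.1 hf
    rintro (h1 | h1)
    · refine ih (Or.inl (h1.trans (Adj.reach ⟨f, hf, hs.symm⟩)))
    · have h2 := h.touch hf' (hs.elim (fun k => Or.inr k.2) (fun k => Or.inl k.1)) h1
      refine ih (Or.inl (h2.trans (Adj.reach ⟨f, hf, hs.symm⟩)))

theorem cls (h : Sw W H a b F q e) {v : Vtx} (hv : ¬ (Reach (↑F : Set Edg) a v ∨ hV q v))
    (w : Vtx) : Reach (↑(fp F q) : Set Edg) v w ↔ Reach (↑F : Set Edg) v w := by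
  constructor
  · intro hr
    induction hr with
    | refl => exact Reach.refl _ _
    | @tail x y _ hs ih =>
      obtain ⟨f, hf, hs⟩ := hs
      have h3 := h.away hv ih
      rcases mem_fp.1 (Finset.mem_coe.1 hf) with ⟨h1, h2⟩ | ⟨h1, h2⟩
      · exact ih.trans (Adj.reach ⟨f, Finset.mem_coe.2 h1, hs⟩)
      · exfalso
        obtain ⟨h4, h5⟩ := hx_hV h1
        rcases hs with ⟨rfl, _⟩ | ⟨_, rfl⟩
        · exact h3 (Or.inr h4)
        · exact h3 (Or.inr h5)
  · exact fun hr => h.up hr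

end Sw

/-- the edges of the path -/
def Pt (a : Vtx) (F : Finset Edg) : Finset Edg := Fl F (fun f => Reach (↑F : Set Edg) a (src f))

/-- the edges of the loops -/
def Lo (a : Vtx) (F : Finset Edg) : Finset Edg := Fl F (fun f => ¬ Reach (↑F : Set Edg) a (src f))

/-- the loops -/
def Ls (a : Vtx) (F : Finset Edg) : Finset (Finset Edg) :=
  (Lo a F).image (fun f => Fl F (fun g => Reach (↑F : Set Edg) (src f) (src g)))

namespace Sw

variable {F : Finset Edg} {q : Vtx} {e : Edg}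

theorem pt (h : Sw W H a b F q e) : Pt a (fp F q) = ((Pt a F).erase e) ∪ ((hx q).erase e) := by
  ext f
  unfold Pt
  rw [mem_Fl, mem_union, mem_erase, mem_Fl, mem_erase, h.reach, mem_fp]
  constructor
  · rintro ⟨h1 | h1, h2⟩
    · left
      refine ⟨fun h3 => h1.2 (by rw [h3]; exact h.he1.2), h1.1, ?_⟩
      rcases h2 with h2 | h2
      · exact h2
      · exact h.touch h1.1 (Or.inl rfl) h2
    · exact Or.inr ⟨fun h3 => h1.2 (by rw [h3]; exact h.he1.1), h1.1⟩
  · rintro (⟨h1, h2, h3⟩ | ⟨h1, h2⟩)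
    · exact ⟨Or.inl ⟨h2, fun h4 => h1 (h.uniq h2 h4)⟩, Or.inl h3⟩
    · exact ⟨Or.inr ⟨h2, fun h4 => h1 (h.uniq h4 h2)⟩, Or.inr (hx_hV h2).1⟩

theorem pt_card (h : Sw W H a b F q e) : (Pt a (fp F q)).card = (Pt a F).card + 4 := by
  have h1 : e ∈ Pt a F := mem_Fl.2 ⟨h.he1.1, h.hr⟩
  rw [h.pt, card_union_of_disjoint, card_erase_of_mem h1, card_erase_of_mem h.he1.2, hx_card]
  · have : 1 ≤ (Pt a F).card := card_pos.2 ⟨e, h1⟩
    omega
  · rw [disjoint_left]
    intro f h2 h3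
    exact (mem_erase.1 h2).1 (h.uniq (mem_Fl.1 (mem_erase.1 h2).2).1 (mem_erase.1 h3).2)

theorem lo (h : Sw W H a b F q e) : Lo a (fp F q) = Lo a F := by
  ext f
  unfold Lo
  rw [mem_Fl, mem_Fl, h.reach, mem_fp]
  constructor
  · rintro ⟨h1 | h1, h2⟩
    · exact ⟨h1.1, fun h3 => h2 (Or.inl h3)⟩
    · exact absurd (Or.inr (hx_hV h1.1).1) h2
  · rintro ⟨h1, h2⟩
    refine ⟨Or.inl ⟨h1, ?_⟩, ?_⟩
    · intro h3
      rw [h.uniq h1 h3] at h2
      exact h2 h.hr
    · rintro (h3 | h3)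
      · exact h2 h3
      · exact h2 (h.touch h1 (Or.inl rfl) h3)

theorem ls (h : Sw W H a b F q e) : Ls a (fp F q) = Ls a F := by
  unfold Ls
  rw [h.lo]
  refine image_congr ?_
  intro f hf
  obtain ⟨h1, h2⟩ := mem_Fl.1 (mem_coe.1 hf)
  have h3 : ¬ (Reach (↑F : Set Edg) a (src f) ∨ hV q (src f)) := by
    rintro (h4 | h4)
    · exact h2 h4
    · exact h2 (h.touch h1 (Or.inl rfl) h4)
  ext g
  rw [mem_Fl, mem_Fl, h.cls h3, mem_fp]
  constructor
  · rintro ⟨h4 | h4, h5⟩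
    · exact ⟨h4.1, h5⟩
    · exact absurd (Or.inr (hx_hV h4.1).1) (h.away h3 h5)
  · rintro ⟨h4, h5⟩
    refine ⟨Or.inl ⟨h4, fun h6 => ?_⟩, h5⟩
    exact h.away h3 h5 (Or.inr (hx_hV h6).1)

theorem card (h : Sw W H a b F q e) : (fp F q).card = F.card + 4 := by
  have h1 : fp F q = (F.erase e) ∪ ((hx q).erase e) := by
    ext f
    rw [mem_fp, mem_union, mem_erase, mem_erase]
    constructor
    · rintro (⟨h1, h2⟩ | ⟨h1, h2⟩)
      · exact Or.inl ⟨fun h3 => h2 (by rw [h3]; exact h.he1.2), h1⟩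
      · exact Or.inr ⟨fun h3 => h2 (by rw [h3]; exact h.he1.1), h1⟩
    · rintro (⟨h1, h2⟩ | ⟨h1, h2⟩)
      · exact Or.inl ⟨h2, fun h4 => h1 (h.uniq h2 h4)⟩
      · exact Or.inr ⟨h2, fun h4 => h1 (h.uniq h4 h2)⟩
  rw [h1, card_union_of_disjoint, card_erase_of_mem h.he1.1, card_erase_of_mem h.he1.2, hx_card]
  · have : 1 ≤ F.card := card_pos.2 ⟨e, h.he1.1⟩
    omega
  · rw [disjoint_left]
    intro f h2 h3
    exact (mem_erase.1 h2).1 (h.uniq (mem_erase.1 h2).2 (mem_erase.1 h3).2)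

end Sw

end

end Pool.Agent.U198.LO
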