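import Pool.Agent.H974R2.Lattice
import Pool.Agent.U198.FK.Mart

/-!
# The loop model on the honeycomb lattice: geometry
-/

set_option autoImplicit false
set_option linter.unusedVariables false

namespace Pool.Agent.U198.LO

open H974 Finset
open scoped Classical

noncomputable section

/-- the six edges of the hexagon with the middle `q` of its lower side -/
def hx (q : Vtx) : Finset Edg :=
  {(q.1 - 1, q.2, true), (q.1, q.2, true), (q.1 - 1, q.2, false), (q.1 + 1, q.2, false),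
    (q.1 - 1, q.2 + 1, true), (q.1, q.2 + 1, true)}

/-- the edges of the honeycomb lattice in the rectangle `[0, W] × [0, H]` -/
def HE (W H : ℕ) : Finset Edg :=
  (RE 0 W 0 H).filter (fun e => e.2.2 = true ∨ Even (e.1 + e.2.1))

/-- the hexagons in the rectangle -/
def HB (W H : ℕ) : Finset Vtx :=
  (Finset.Icc (1 : ℤ) (W - 1) ×ˢ Finset.Icc (0 : ℤ) (H - 1)).filter (fun q => Odd (q.1 + q.2))

theorem mem_hx {q : Vtx} {e : Edg} : e ∈ hx q ↔ e = (q.1 - 1, q.2, true) ∨ e = (q.1, q.2, true) ∨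
    e = (q.1 - 1, q.2, false) ∨ e = (q.1 + 1, q.2, false) ∨ e = (q.1 - 1, q.2 + 1, true) ∨
    e = (q.1, q.2 + 1, true) := by
  unfold hx
  simp only [mem_insert, mem_singleton]

theorem mem_hx_true {q : Vtx} {x y : ℤ} : ((x, y, true) : Edg) ∈ hx q ↔
    (x = q.1 - 1 ∨ x = q.1) ∧ (y = q.2 ∨ y = q.2 + 1) := by
  rw [mem_hx]
  simp only [Prod.mk.injEq, and_true, Bool.true_eq_false, and_false, false_or]
  omega

theorem mem_hx_false {q : Vtx} {x y : ℤ} : ((x, y, false) : Edg) ∈ hx q ↔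
    (x = q.1 - 1 ∨ x = q.1 + 1) ∧ y = q.2 := by
  rw [mem_hx]
  simp only [Prod.mk.injEq, and_true, Bool.false_eq_true, and_false, false_or, or_false]
  omega

theorem mem_HE_true {W H : ℕ} {x y : ℤ} : ((x, y, true) : Edg) ∈ HE W H ↔
    0 ≤ x ∧ x < W ∧ 0 ≤ y ∧ y ≤ H := by
  unfold HE
  rw [mem_filter, mem_RE_true]
  simp

theorem mem_HE_false {W H : ℕ} {x y : ℤ} : ((x, y, false) : Edg) ∈ HE W H ↔
    (0 ≤ x ∧ x ≤ W ∧ 0 ≤ y ∧ y < H) ∧ Even (x + y) := by
  unfold HE
  rw [mem_filter, mem_RE_false]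
  simp

theorem mem_HB {W H : ℕ} {q : Vtx} : q ∈ HB W H ↔
    (1 ≤ q.1 ∧ q.1 + 1 ≤ W ∧ 0 ≤ q.2 ∧ q.2 + 1 ≤ H) ∧ Odd (q.1 + q.2) := by
  unfold HB
  rw [mem_filter, mem_product, mem_Icc, mem_Icc]
  constructor
  · rintro ⟨⟨⟨h1, h2⟩, h3, h4⟩, h5⟩
    exact ⟨⟨h1, by omega, h3, by omega⟩, h5⟩
  · rintro ⟨⟨h1, h2, h3, h4⟩, h5⟩
    exact ⟨⟨⟨h1, by omega⟩, h3, by omega⟩, h5⟩

theorem hx_sub {W H : ℕ} {q : Vtx} (hq : q ∈ HB W H) : hx q ⊆ HE W H := by
  obtain ⟨⟨h1, h2, h3, h4⟩, h5⟩ := mem_HB.1 hq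
  rintro ⟨x, y, b⟩ he
  cases b
  · rw [mem_hx_false] at he
    rw [mem_HE_false]
    refine ⟨by omega, ?_⟩
    obtain ⟨h6, h7⟩ := he
    rw [h7]
    rcases h6 with h6 | h6
    · rw [h6, show q.1 - 1 + q.2 = (q.1 + q.2) - 1 by ring]
      exact h5.sub_odd odd_one
    · rw [h6, show q.1 + 1 + q.2 = (q.1 + q.2) + 1 by ring]
      exact h5.add_one
  · rw [mem_hx_true] at he
    rw [mem_HE_true]
    omega

/-- the number of edges of `F` at `v` -/
def dg (F : Finset Edg) (v : Vtx) : ℕ := (F.filter (fun e => src e = v ∨ tgt e = v)).card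

/-- its parity -/
def dz (F : Finset Edg) (v : Vtx) : ZMod 2 :=
  ∑ e ∈ F, ((if src e = v then 1 else 0) + (if tgt e = v then 1 else 0))

theorem src_ne_tgt (e : Edg) : src e ≠ tgt e := by
  obtain ⟨x, y, b⟩ := e
  cases b <;> simp

theorem dg_dz (F : Finset Edg) (v : Vtx) : ((dg F v : ℕ) : ZMod 2) = dz F v := by
  unfold dg dz
  rw [card_filter]
  push_cast
  refine sum_congr rfl fun e _ => ?_
  by_cases h1 : src e = v
  · have h2 : tgt e ≠ v := fun h => src_ne_tgt e (h1.trans h.symm)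
    simp [h1, h2]
  · simp [h1]

theorem odd_dg (F : Finset Edg) (v : Vtx) : Odd (dg F v) ↔ dz F v = 1 := by
  rw [← dg_dz, ← ZMod.natCast_eq_one_iff_odd]

theorem sum_symm (f : Edg → ZMod 2) (F G : Finset Edg) :
    ∑ e ∈ symmDiff F G, f e = ∑ e ∈ F, f e + ∑ e ∈ G, f e := by
  have h1 : ∑ e ∈ F, f e = ∑ e ∈ F \ G, f e + ∑ e ∈ F ∩ G, f e := by
    rw [← sum_union (disjoint_sdiff_inter F G), sdiff_union_inter]
  have h2 : ∑ e ∈ G, f e = ∑ e ∈ G \ F, f e + ∑ e ∈ F ∩ G, f e := by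
    rw [inter_comm, ← sum_union (disjoint_sdiff_inter G F), sdiff_union_inter]
  have h3 : ∑ e ∈ symmDiff F G, f e = ∑ e ∈ F \ G, f e + ∑ e ∈ G \ F, f e := by
    show ∑ e ∈ (F \ G) ∪ (G \ F), f e = _
    rw [sum_union]
    rw [disjoint_left]
    intro e he he'
    exact (mem_sdiff.1 he').2 (mem_sdiff.1 he).1
  rw [h1, h2, h3]
  have h4 : ∀ t : ZMod 2, t + t = 0 := fun t => CharTwo.add_self_eq_zero t
  linear_combination -h4 (∑ e ∈ F ∩ G, f e)

theorem dz_symm (F G : Finset Edg) (v : Vtx) : dz (symmDiff F G) v = dz F v + dz G v :=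
  sum_symm _ _ _

theorem dz_eq (F : Finset Edg) (x y : ℤ) : dz F (x, y) =
    (if ((x, y, true) : Edg) ∈ F then 1 else 0) + (if ((x, y, false) : Edg) ∈ F then 1 else 0) +
    ((if ((x - 1, y, true) : Edg) ∈ F then 1 else 0) +
      (if ((x, y - 1, false) : Edg) ∈ F then 1 else 0)) := by
  have h : ∀ e : Edg, ((if src e = (x, y) then 1 else 0) + (if tgt e = (x, y) then 1 else 0) :
      ZMod 2) = ((if e = (x, y, true) then 1 else 0) + (if e = (x, y, false) then 1 else 0)) +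
      ((if e = (x - 1, y, true) then 1 else 0) + (if e = (x, y - 1, false) then 1 else 0)) := by
    rintro ⟨x', y', b⟩
    cases b
    · simp only [src_mk, tgt_false, Prod.mk.injEq, Bool.false_eq_true, and_false, and_true,
        if_false, zero_add, eq_sub_iff_add_eq]
    · simp only [src_mk, tgt_true, Prod.mk.injEq, Bool.true_eq_false, and_false, and_true,
        if_false, add_zero, eq_sub_iff_add_eq]
  unfold dz
  rw [sum_congr rfl (fun e _ => h e), sum_add_distrib, sum_add_distrib, sum_add_distrib,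
    sum_ite_eq', sum_ite_eq', sum_ite_eq', sum_ite_eq']

theorem dz_hx (q v : Vtx) : dz (hx q) v = 0 := by
  obtain ⟨x, y⟩ := v
  rw [dz_eq]
  simp only [mem_hx_true, mem_hx_false]
  by_cases h1 : x = q.1 - 1
  · by_cases h2 : y = q.2
    · subst h1; subst h2
      have h5 : ¬ q.1 - 1 - 1 = q.1 := by omega
      simp [h5]
      rfl
    · by_cases h3 : y = q.2 + 1
      · subst h1; subst h3
        have h5 : ¬ q.1 - 1 - 1 = q.1 := by omega
        simp [h5]
        rfl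
      · have h4 : ¬ y - 1 = q.2 := by omega
        simp [h2, h3, h4]
  · by_cases h1' : x = q.1
    · by_cases h2 : y = q.2
      · subst h1'; subst h2
        have h5 : ¬ q.1 = q.1 - 1 := by omega
        simp [h5]
        rfl
      · by_cases h3 : y = q.2 + 1
        · subst h1'; subst h3
          have h5 : ¬ q.1 = q.1 - 1 := by omega
          simp [h5]
          rfl
        · have h4 : ¬ y - 1 = q.2 := by omega
          simp [h2, h3, h4]
    · by_cases h1'' : x = q.1 + 1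
      · by_cases h2 : y = q.2
        · subst h1''; subst h2
          have h5 : ¬ q.1 + 1 = q.1 - 1 := by omega
          simp [h5]
          rfl
        · by_cases h3 : y = q.2 + 1
          · subst h1''; subst h3
            have h5 : ¬ q.1 + 1 = q.1 - 1 := by omega
            simp [h5]
            rfl
          · have h4 : ¬ y - 1 = q.2 := by omega
            simp [h2, h3, h4]
      · have h6 : ¬ x - 1 = q.1 := by omega
        simp [h1, h1', h1'', h6]

theorem hx_card (q : Vtx) : (hx q).card = 6 := by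
  obtain ⟨x, y⟩ := q
  unfold hx
  have h1 : x - 1 ≠ x := by omega
  have h2 : x - 1 ≠ x + 1 := by omega
  have h3 : y ≠ y + 1 := by omega
  rw [card_insert_of_notMem, card_insert_of_notMem, card_insert_of_notMem, card_insert_of_notMem,
    card_insert_of_notMem, card_singleton]
  all_goals simp [h1, h2, h3]

/-- loop configurations: the vertices with an odd number of edges are `a` and `b` -/
def LC (W H : ℕ) (a b : Vtx) : Finset (Finset Edg) :=
  (HE W H).powerset.filter (fun F => ∀ v, Odd (dg F v) ↔ (v = a ∨ v = b))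

theorem mem_LC {W H : ℕ} {a b : Vtx} {F : Finset Edg} : F ∈ LC W H a b ↔
    F ⊆ HE W H ∧ ∀ v, Odd (dg F v) ↔ (v = a ∨ v = b) := by
  unfold LC
  rw [mem_filter, mem_powerset]

/-- flipping a hexagon -/
def fp (F : Finset Edg) (q : Vtx) : Finset Edg := symmDiff F (hx q)

theorem mem_fp {F : Finset Edg} {q : Vtx} {e : Edg} :
    e ∈ fp F q ↔ (e ∈ F ∧ e ∉ hx q) ∨ (e ∈ hx q ∧ e ∉ F) := by
  unfold fp
  rw [mem_symmDiff]

theorem fp_fp (F : Finset Edg) (q : Vtx) : fp (fp F q) q = F := by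
  unfold fp
  rw [symmDiff_assoc, symmDiff_self]
  exact symmDiff_bot F

theorem fp_comm (F : Finset Edg) (q q' : Vtx) : fp (fp F q) q' = fp (fp F q') q := by
  unfold fp
  rw [symmDiff_assoc, symmDiff_assoc, symmDiff_comm (hx q)]

theorem fp_LC {W H : ℕ} {a b : Vtx} {F : Finset Edg} (hF : F ∈ LC W H a b) {q : Vtx}
    (hq : q ∈ HB W H) : fp F q ∈ LC W H a b := by
  rw [mem_LC] at hF ⊢
  refine ⟨?_, ?_⟩
  · intro e he
    rcases mem_fp.1 he with h | h
    · exact hF.1 h.1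
    · exact hx_sub hq h.1
  · intro v
    rw [← hF.2 v, odd_dg, odd_dg]
    unfold fp
    rw [dz_symm, dz_hx, add_zero]

/-- the parity at a vertex -/
theorem par {W H : ℕ} {a b : Vtx} {F : Finset Edg} (hF : F ∈ LC W H a b) {x y : ℤ}
    (ha : ((x, y) : Vtx) ≠ a) (hb : ((x, y) : Vtx) ≠ b) : dz F (x, y) = 0 := by
  have h1 := (mem_LC.1 hF).2 (x, y)
  rw [odd_dg] at h1
  have h2 : dz F (x, y) ≠ 1 := fun h => (h1.1 h).elim ha hb
  revert h2
  generalize dz F (x, y) = t
  intro h2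
  fin_cases t
  · rfl
  · exact absurd rfl h2

theorem par3 {W H : ℕ} {a b : Vtx} {F : Finset Edg} (hF : F ∈ LC W H a b) {x y : ℤ}
    (ha : ((x, y) : Vtx) ≠ a) (hb : ((x, y) : Vtx) ≠ b) {s1 s2 s3 : Edg}
    (h : (Odd (x + y) ∧ s3 = (x, y - 1, false)) ∨ (Even (x + y) ∧ s3 = (x, y, false)))
    (h1 : s1 = (x - 1, y, true)) (h2 : s2 = (x, y, true)) :
    ((s1 ∈ F ∧ s2 ∈ F ∧ s3 ∉ F) ∨ (s1 ∈ F ∧ s2 ∉ F ∧ s3 ∈ F) ∨ (s1 ∉ F ∧ s2 ∈ F ∧ s3 ∈ F) ∨
      (s1 ∉ F ∧ s2 ∉ F ∧ s3 ∉ F)) ∧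
    (∀ f ∈ F, (src f = (x, y) ∨ tgt f = (x, y)) → f = s1 ∨ f = s2 ∨ f = s3) := by
  subst h1; subst h2
  have hd := par hF ha hb
  rw [dz_eq] at hd
  have hsub := (mem_LC.1 hF).1
  have hno : (Odd (x + y) → ((x, y, false) : Edg) ∉ F) ∧
      (Even (x + y) → ((x, y - 1, false) : Edg) ∉ F) := by
    constructor
    · intro ho hm
      have := (mem_HE_false.1 (hsub hm)).2
      exact (Int.not_even_iff_odd.2 ho) this
    · intro he hm
      have h3 := (mem_HE_false.1 (hsub hm)).2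
      rw [show x + (y - 1) = (x + y) - 1 by ring] at h3
      exact (Int.not_even_iff_odd.2 (he.sub_odd odd_one)) h3
  constructor
  · rcases h with ⟨h3, rfl⟩ | ⟨h3, rfl⟩
    · have h4 := hno.1 h3
      by_cases k1 : ((x - 1, y, true) : Edg) ∈ F <;> by_cases k2 : ((x, y, true) : Edg) ∈ F <;>
        by_cases k3 : ((x, y - 1, false) : Edg) ∈ F <;> simp [k1, k2, k3, h4] at hd ⊢
      exact absurd hd (by decide)
    · have h4 := hno.2 h3
      by_cases k1 : ((x - 1, y, true) : Edg) ∈ F <;> by_cases k2 : ((x, y, true) : Edg) ∈ F <;>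
        by_cases k3 : ((x, y, false) : Edg) ∈ F <;> simp [k1, k2, k3, h4] at hd ⊢
      exact absurd hd (by decide)
  · rintro ⟨x', y', b'⟩ hf hv
    cases b'
    · simp only [src_mk, tgt_false, Prod.mk.injEq] at hv
      rcases hv with ⟨rfl, rfl⟩ | ⟨rfl, hy⟩
      · rcases h with ⟨h3, rfl⟩ | ⟨h3, rfl⟩
        · exact absurd hf (hno.1 h3)
        · exact Or.inr (Or.inr rfl)
      · obtain rfl : y' = y - 1 := by omega
        rcases h with ⟨h3, rfl⟩ | ⟨h3, rfl⟩
        · exact Or.inr (Or.inr rfl)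
        · exact absurd hf (hno.2 h3)
    · simp only [src_mk, tgt_true, Prod.mk.injEq] at hv
      rcases hv with ⟨rfl, rfl⟩ | ⟨hx', rfl⟩
      · exact Or.inr (Or.inl rfl)
      · obtain rfl : x' = x - 1 := by omega
        exact Or.inl rfl

end

end Pool.Agent.U198.LO
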