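import Pool.Agent.U198.LO.Wt

/-!
# Tests in the rows
-/

set_option autoImplicit false
set_option linter.unusedVariables false

namespace Pool.Agent.U198.LO

open H974 Finset
open Pool.Agent.U198.FK (Fl mem_Fl Expl expl nT)
open scoped Classical

noncomputable section

/-- the edges below row `y` -/
def ct (y : ℤ) (F : Finset Edg) : Finset Edg := Fl F (fun e => e.2.1 < y)

theorem mem_ct {y : ℤ} {F : Finset Edg} {e : Edg} : e ∈ ct y F ↔ e ∈ F ∧ e.2.1 < y := mem_Fl

variable {W H : ℕ} {a b : Vtx}

theorem dz_val {F : Finset Edg} (hF : F ∈ LC W H a b) (v : Vtx) :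
    dz F v = if (v = a ∨ v = b) then 1 else 0 := by
  have h1 := (mem_LC.1 hF).2 v
  rw [odd_dg] at h1
  by_cases h : v = a ∨ v = b
  · rw [if_pos h]
    exact h1.2 h
  · rw [if_neg h]
    have h2 : dz F v ≠ 1 := fun h3 => h (h1.1 h3)
    revert h2
    generalize dz F v = t
    intro h2
    fin_cases t
    · rfl
    · exact absurd rfl h2

/-- the path crosses every row -/
theorem cross (ha : a.2 = 0) (hb : b.2 = H) {F : Finset Edg} (hF : F ∈ LC W H a b) {y : ℤ}
    (h0 : 0 < y) (hy : y ≤ H) :
    ∃ X : ℤ, ((X, y - 1, false) : Edg) ∈ ct y F ∧ Reach (↑(ct y F) : Set Edg) a (X, y) := by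
  by_contra hcon
  push Not at hcon
  obtain ⟨G, hG⟩ : ∃ G, G = ct y F := ⟨_, rfl⟩
  rw [← hG] at hcon
  obtain ⟨M, hM⟩ : ∃ M, M = Fl G (fun f => Reach (↑G : Set Edg) a (src f)) := ⟨_, rfl⟩
  obtain ⟨S, hS⟩ : ∃ S : Finset Vtx, S = insert a (M.image src ∪ M.image tgt) := ⟨_, rfl⟩
  have hMS : ∀ f ∈ M, src f ∈ S ∧ tgt f ∈ S := by
    intro f hf
    rw [hS]
    exact ⟨mem_insert_of_mem (mem_union_left _ (mem_image_of_mem _ hf)),
      mem_insert_of_mem (mem_union_right _ (mem_image_of_mem _ hf))⟩
  have hMr : ∀ f ∈ M, Reach (↑G : Set Edg) a (src f) ∧ Reach (↑G : Set Edg) a (tgt f) := by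
    intro f hf
    rw [hM] at hf
    obtain ⟨h1, h2⟩ := mem_Fl.1 hf
    exact ⟨h2, h2.trans (Adj.reach ⟨f, Finset.mem_coe.2 h1, Or.inl ⟨rfl, rfl⟩⟩)⟩
  have hsum : ∑ v ∈ S, dz M v = 0 := by
    unfold dz
    rw [sum_comm]
    refine sum_eq_zero fun f hf => ?_
    rw [sum_add_distrib, sum_ite_eq, sum_ite_eq, if_pos (hMS f hf).1, if_pos (hMS f hf).2]
    exact CharTwo.add_self_eq_zero 1
  have hval : ∀ v ∈ S, dz M v = if v = a then 1 else 0 := by
    intro v hv
    have hr : Reach (↑G : Set Edg) a v := by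
      rw [hS, mem_insert, mem_union, mem_image, mem_image] at hv
      rcases hv with rfl | ⟨f, hf, rfl⟩ | ⟨f, hf, rfl⟩
      · exact Reach.refl _ _
      · exact (hMr f hf).1
      · exact (hMr f hf).2
    have hrow : v.2 < y := by
      rw [hS, mem_insert, mem_union, mem_image, mem_image] at hv
      rcases hv with rfl | ⟨f, hf, rfl⟩ | ⟨f, hf, rfl⟩
      · rw [ha]; exact h0
      · rw [hM, hG] at hf
        exact (mem_ct.1 (mem_Fl.1 hf).1).2
      · have h1 := hf
        rw [hM, hG] at h1
        have h2 := (mem_ct.1 (mem_Fl.1 h1).1).2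
        by_contra h3
        push Not at h3
        obtain ⟨fx, fy, fb⟩ := f
        cases fb
        · simp only [tgt_false] at h2 h3
          have h4 : fy = y - 1 := by omega
          subst h4
          refine hcon fx ?_ ?_
          · rw [hM] at hf
            exact (mem_Fl.1 hf).1
          · have h5 := (hMr _ hf).2
            rw [tgt_false, sub_add_cancel] at h5
            exact h5
        · simp only [tgt_true] at h2 h3
          omega
    have h1 : dz M v = dz G v := by
      unfold dz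
      rw [hM]
      refine sum_subset (fun f hf => (mem_Fl.1 hf).1) ?_
      intro f hf hf'
      have h2 : ¬ Reach (↑G : Set Edg) a (src f) := fun h => hf' (mem_Fl.2 ⟨hf, h⟩)
      have h3 : src f ≠ v := fun h => h2 (h ▸ hr)
      have h4 : tgt f ≠ v := by
        intro h
        refine h2 (Reach.trans (v := v) hr (Adj.reach ⟨f, Finset.mem_coe.2 hf, Or.inr ⟨rfl, h⟩⟩))
      rw [if_neg h3, if_neg h4, add_zero]
    have h2 : dz G v = dz F v := by
      unfold dz
      rw [hG]
      refine sum_subset (fun f hf => (mem_ct.1 hf).1) ?_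
      intro f hf hf'
      have h5 : ¬ f.2.1 < y := fun h => hf' (mem_ct.2 ⟨hf, h⟩)
      have h3 : src f ≠ v := by
        rintro rfl
        exact h5 hrow
      have h4 : tgt f ≠ v := by
        rintro rfl
        obtain ⟨fx, fy, fb⟩ := f
        cases fb
        · simp only [tgt_false] at hrow h5
          omega
        · simp only [tgt_true] at hrow h5
          omega
      rw [if_neg h3, if_neg h4, add_zero]
    rw [h1, h2, dz_val hF]
    have h3 : v ≠ b := by
      rintro rfl
      omega
    by_cases h4 : v = a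
    · rw [if_pos h4, if_pos (Or.inl h4)]
    · rw [if_neg h4, if_neg (fun h => h.elim h4 h3)]
  rw [sum_congr rfl hval, sum_ite_eq', if_pos (by rw [hS]; exact mem_insert_self _ _)] at hsum
  exact one_ne_zero hsum

/-- where the path enters row `y` -/
def uo (a : Vtx) (y : ℤ) (G : Finset Edg) : ℤ :=
  if h : ∃ X : ℤ, ((X, y - 1, false) : Edg) ∈ G ∧ Reach (↑G : Set Edg) a (X, y) then h.choose else 0

theorem uo_spec (ha : a.2 = 0) (hb : b.2 = H) {F : Finset Edg} (hF : F ∈ LC W H a b) {y : ℤ}
    (h0 : 0 < y) (hy : y ≤ H) : ((uo a y (ct y F), y - 1, false) : Edg) ∈ ct y F ∧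
      Reach (↑(ct y F) : Set Edg) a (uo a y (ct y F), y) := by
  have h := cross ha hb hF h0 hy
  unfold uo
  rw [dif_pos h]
  exact h.choose_spec

/-- the tested row -/
def yt (t : ℕ) : ℤ := 2 * (t + 1)

/-- the tested hexagon -/
def qt (a : Vtx) (t : ℕ) (F : Finset Edg) : Vtx := (uo a (yt t) (ct (yt t) F), yt t)

/-- the number of tests -/
def Jn (H : ℕ) : ℕ := (H - 2) / 2

theorem yt_le {t : ℕ} (h : t < Jn H) : 2 ≤ yt t ∧ yt t + 2 ≤ H := by
  unfold Jn at h
  unfold yt
  omega

def ky (t : ℕ) (F : Finset Edg) : Finset Edg := ct (yt t) F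

def tc (H : ℕ) (t : ℕ) (F : Finset Edg) : Prop := t < Jn H

def su (a : Vtx) (H : ℕ) (t : ℕ) (F : Finset Edg) : Prop :=
  t < Jn H ∧ (F ∩ hx (qt a t F)).card = 1

theorem ct_fp {y : ℤ} {F : Finset Edg} {q : Vtx} (hq : y ≤ q.2) : ct y (fp F q) = ct y F := by
  ext f
  rw [mem_ct, mem_ct, mem_fp]
  have h1 : f ∈ hx q → ¬ f.2.1 < y := by
    intro h
    obtain ⟨fx, fy, fb⟩ := f
    cases fb
    · rw [mem_hx_false] at h
      simp only
      omega
    · rw [mem_hx_true] at h
      simp only
      omega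
  constructor
  · rintro ⟨h2 | h2, h3⟩
    · exact ⟨h2.1, h3⟩
    · exact absurd h3 (h1 h2.1)
  · rintro ⟨h2, h3⟩
    exact ⟨Or.inl ⟨h2, fun h => h1 h h3⟩, h3⟩

/-- position of the tested hexagon -/
theorem qt_pos (hW : Even W) (ha : a.2 = 0) (hb : b.2 = H) {F : Finset Edg}
    (hF : F ∈ LC W H a b) {t : ℕ} (ht : t < Jn H) {X : ℤ} (hX : X = uo a (yt t) (ct (yt t) F)) :
    1 ≤ X ∧ X + 1 ≤ W ∧ Odd X ∧ ((X, yt t - 1, false) : Edg) ∈ F ∧
      Reach (↑F : Set Edg) a (X, yt t) := by
  obtain ⟨h1, h2⟩ := yt_le ht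
  obtain ⟨h3, h4⟩ := uo_spec ha hb hF (y := yt t) (by omega) (by omega)
  rw [← hX] at h3 h4
  have h5 := (mem_ct.1 h3).1
  have h6 := (mem_LC.1 hF).1 h5
  rw [mem_HE_false] at h6
  obtain ⟨⟨k1, k2, k3, k4⟩, k5⟩ := h6
  obtain ⟨j, hj⟩ := k5
  obtain ⟨m, hm⟩ := hW
  have hodd : ∃ i : ℤ, X = 2 * i + 1 := by
    unfold yt at hj
    exact ⟨j - t - 1, by omega⟩
  obtain ⟨i, hi⟩ := hodd
  refine ⟨by omega, by omega, ⟨i, hi⟩, h5, ?_⟩
  refine Reach.mono ?_ h4
  intro f hf
  exact Finset.mem_coe.2 (mem_ct.1 (Finset.mem_coe.1 hf)).1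

theorem one_card {F : Finset Edg} {q : Vtx} {e : Edg} (h1 : e ∈ F) (h2 : e ∈ hx q)
    (h3 : ∀ f ∈ hx q, f ≠ e → f ∉ F) : (F ∩ hx q).card = 1 := by
  have : F ∩ hx q = {e} := by
    ext f
    rw [mem_inter, mem_singleton]
    constructor
    · rintro ⟨h4, h5⟩
      by_contra h6
      exact h3 f h5 h6 h4
    · rintro rfl
      exact ⟨h1, h2⟩
  rw [this, card_singleton]

/-- the lists of flips -/
theorem test (hW : Even W) (hW4 : 4 ≤ W) (ha : a.2 = 0) (hb : b.2 = H) {c n x : ℝ} (B : Bd c n x)
    {F₀ : Finset Edg} (hF₀ : F₀ ∈ LC W H a b) {t : ℕ} (ht : t < Jn H) :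
    Sm n x a (LC W H a b) (fun F => ky t F = ky t F₀) ≤ (1 + c ^ 18) ^ 5 *
      Sm n x a (LC W H a b) (fun F => ky t F = ky t F₀ ∧ su a H t F) := by
  have hc0 : 0 < c := by linarith [B.c1]
  obtain ⟨y1, y2⟩ := yt_le ht
  obtain ⟨y, hy⟩ : ∃ y, y = yt t := ⟨_, rfl⟩
  obtain ⟨X, hX⟩ : ∃ X, X = uo a (yt t) (ct (yt t) F₀) := ⟨_, rfl⟩
  obtain ⟨x1, x2, x3, x4, x5⟩ := qt_pos hW ha hb hF₀ ht hX
  have hye : ∃ k : ℤ, y = 2 * k := ⟨t + 1, by rw [hy]; unfold yt; ring⟩
  obtain ⟨k, hk⟩ := hye
  obtain ⟨i, hi⟩ := x3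
  obtain ⟨m, hm⟩ := hW
  rw [← hy] at y1 y2 x4 x5
  have hqt : ∀ F, ky t F = ky t F₀ → qt a t F = (X, y) := by
    intro F hF
    unfold ky at hF
    unfold qt
    rw [hF, ← hX, ← hy]
  have hin : ∀ F, ky t F = ky t F₀ → ((X, y - 1, false) : Edg) ∈ F := by
    intro F hF
    have h1 : ((X, y - 1, false) : Edg) ∈ ky t F₀ := by
      unfold ky
      rw [← hy]
      exact mem_ct.2 ⟨x4, by simp⟩
    rw [← hF] at h1
    exact (mem_ct.1 h1).1
  have hXW : X + 1 ≤ W := x2
  have hPq : ∀ q : Vtx, y ≤ q.2 → ∀ F, ky t F = ky t F₀ → ky t (fp F q) = ky t F₀ := by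
    intro q hq F hF
    unfold ky at hF ⊢
    rw [ct_fp (by omega), hF]
  have hva : ∀ u v : ℤ, 0 < v → ((u, v) : Vtx) ≠ a := by
    rintro u v hv rfl
    simp only at ha
    omega
  have hvb : ∀ u v : ℤ, v < H → ((u, v) : Vtx) ≠ b := by
    rintro u v hv rfl
    simp only at hb
    omega
  -- the parity at `(X, y)`
  have hpar : ∀ F ∈ LC W H a b, ky t F = ky t F₀ →
      (((X - 1, y, true) : Edg) ∈ F ∧ ((X, y, true) : Edg) ∉ F) ∨
        (((X - 1, y, true) : Edg) ∉ F ∧ ((X, y, true) : Edg) ∈ F) := by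
    intro F hF hk'
    obtain ⟨p1, _⟩ := par3 hF (hva X y (by omega)) (hvb X y (by omega))
      (s3 := (X, y - 1, false)) (Or.inl ⟨⟨i + k, by omega⟩, rfl⟩) rfl rfl
    have h1 := hin F hk'
    rcases p1 with ⟨_, _, h⟩ | ⟨h2, h3, _⟩ | ⟨h2, h3, _⟩ | ⟨_, _, h⟩
    · exact absurd h1 h
    · exact Or.inl ⟨h2, h3⟩
    · exact Or.inr ⟨h2, h3⟩
    · exact absurd h1 h
  -- general conclusion
  have hfin : ∀ l : List (Vtx × Edg), l.length ≤ 5 → (∀ p ∈ l, (p.1 ∈ HB W H ∧ p.2 ∈ hx p.1) ∧
      y ≤ p.1.2) → l.Pairwise (fun p p' => p'.2 ∉ hx p.1) →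
      (∀ F ∈ LC W H a b, ky t F = ky t F₀ → (∀ p ∈ l, p.2 ∉ F) → (F ∩ hx (X, y)).card = 1) →
      Sm n x a (LC W H a b) (fun F => ky t F = ky t F₀) ≤ (1 + c ^ 18) ^ 5 *
      Sm n x a (LC W H a b) (fun F => ky t F = ky t F₀ ∧ su a H t F) := by
    intro l hl hl1 hl2 hl3
    have h1 := off_list (W := W) (H := H) (a := a) (b := b) B (fun F => ky t F = ky t F₀) l
      (fun p hp => (hl1 p hp).1) hl2 (fun p hp => hPq p.1 (hl1 p hp).2)
    have h2 : Sm n x a (LC W H a b) (fun F => ky t F = ky t F₀ ∧ ∀ p ∈ l, p.2 ∉ F) ≤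
        Sm n x a (LC W H a b) (fun F => ky t F = ky t F₀ ∧ su a H t F) := by
      refine Sm_mono B ?_
      rintro F hF ⟨h3, h4⟩
      refine ⟨h3, ht, ?_⟩
      rw [hqt F h3]
      exact hl3 F hF h3 h4
    have h3 : 0 ≤ Sm n x a (LC W H a b) (fun F => ky t F = ky t F₀ ∧ su a H t F) :=
      sum_nonneg (fun F _ => (wt_pos B a F).le)
    have h4 : (1 + c ^ 18) ^ l.length ≤ (1 + c ^ 18) ^ 5 :=
      pow_le_pow_right₀ (by linarith [pow_pos hc0 18]) hl
    have h5 : (0 : ℝ) ≤ (1 + c ^ 18) ^ l.length := by positivity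
    exact h1.trans ((mul_le_mul_of_nonneg_left h2 h5).trans (mul_le_mul_of_nonneg_right h4 h3))
  have hB : ∀ u v : ℤ, 1 ≤ u → u + 1 ≤ W → 0 ≤ v → v + 1 ≤ H → (∃ j : ℤ, u + v = 2 * j + 1) →
      ((u, v) : Vtx) ∈ HB W H := by
    rintro u v h1 h2 h3 h4 ⟨j, hj⟩
    exact mem_HB.2 ⟨⟨h1, h2, h3, h4⟩, j, hj⟩
  by_cases hl : X = 1
  · -- the left side
    refine hfin [((X + 2, y), (X + 1, y, false)), ((X + 1, y + 1), (X, y + 1, true)),
      ((X, y), (X - 1, y, true))] (by simp) ?_ ?_ ?_
    · intro p hp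
      simp only [List.mem_cons, List.not_mem_nil, or_false] at hp
      rcases hp with rfl | rfl | rfl
      · refine ⟨⟨hB _ _ (by omega) (by omega) (by omega) (by omega) ⟨i + k + 1, by omega⟩, ?_⟩,
          by simp⟩
        rw [mem_hx_false]
        constructor <;> simp <;> omega
      · refine ⟨⟨hB _ _ (by omega) (by omega) (by omega) (by omega) ⟨i + k + 1, by omega⟩, ?_⟩,
          by simp⟩
        rw [mem_hx_true]
        constructor <;> simp <;> omega
      · refine ⟨⟨hB _ _ (by omega) (by omega) (by omega) (by omega) ⟨i + k, by omega⟩, ?_⟩,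
          by simp⟩
        rw [mem_hx_true]
        constructor <;> simp <;> omega
    · simp only [List.pairwise_cons, List.mem_cons, List.not_mem_nil, or_false, forall_eq_or_imp,
        forall_eq, mem_hx_true, mem_hx_false, List.Pairwise.nil, and_true, false_imp_iff,
        implies_true]
      omega
    · intro F hF hk' hoff
      have o1 := hoff ((X + 2, y), (X + 1, y, false)) (by simp)
      have o2 := hoff ((X + 1, y + 1), (X, y + 1, true)) (by simp)
      have o3 := hoff ((X, y), (X - 1, y, true)) (by simp)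
      simp only at o1 o2 o3
      have hs2 : ((X, y, true) : Edg) ∈ F := by
        rcases hpar F hF hk' with h | h
        · exact absurd h.1 o3
        · exact h.2
      have hsub := (mem_LC.1 hF).1
      have w1 : ((X - 1, y, false) : Edg) ∉ F := by
        obtain ⟨p1, _⟩ := par3 hF (hva (X - 1) y (by omega)) (hvb (X - 1) y (by omega))
          (s3 := (X - 1, y, false)) (Or.inr ⟨⟨i + k, by omega⟩, rfl⟩) rfl rfl
        have h1 : ((X - 1 - 1, y, true) : Edg) ∉ F := by
          intro h
          have := mem_HE_true.1 (hsub h)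
          omega
        rcases p1 with ⟨h, _, _⟩ | ⟨h, _, _⟩ | ⟨_, h, _⟩ | ⟨_, _, h⟩
        · exact absurd h h1
        · exact absurd h h1
        · exact absurd h o3
        · exact h
      have w2 : ((X - 1, y + 1, true) : Edg) ∉ F := by
        obtain ⟨p1, _⟩ := par3 hF (hva (X - 1) (y + 1) (by omega)) (hvb (X - 1) (y + 1) (by omega))
          (s3 := (X - 1, y + 1 - 1, false)) (Or.inl ⟨⟨i + k, by omega⟩, rfl⟩) rfl rfl
        have h1 : ((X - 1 - 1, y + 1, true) : Edg) ∉ F := by
          intro h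
          have := mem_HE_true.1 (hsub h)
          omega
        rw [add_sub_cancel_right] at p1
        rcases p1 with ⟨h, _, _⟩ | ⟨h, _, _⟩ | ⟨_, _, h⟩ | ⟨_, h, _⟩
        · exact absurd h h1
        · exact absurd h h1
        · exact absurd h w1
        · exact h
      refine one_card hs2 (by rw [mem_hx_true]; simp) ?_
      intro f hf hne
      rcases mem_hx.1 hf with rfl | rfl | rfl | rfl | rfl | rfl
      · exact o3
      · exact absurd rfl hne
      · exact w1
      · exact o1
      · exact w2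
      · exact o2
  · by_cases hr : X + 1 = W
    · -- the right side
      refine hfin [((X - 2, y), (X - 1, y, false)), ((X - 1, y + 1), (X - 1, y + 1, true)),
        ((X, y), (X, y, true))] (by simp) ?_ ?_ ?_
      · intro p hp
        simp only [List.mem_cons, List.not_mem_nil, or_false] at hp
        rcases hp with rfl | rfl | rfl
        · refine ⟨⟨hB _ _ (by omega) (by omega) (by omega) (by omega) ⟨i + k - 1, by omega⟩, ?_⟩,
            by simp⟩
          rw [mem_hx_false]
          constructor <;> simp <;> omega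
        · refine ⟨⟨hB _ _ (by omega) (by omega) (by omega) (by omega) ⟨i + k, by omega⟩, ?_⟩,
            by simp⟩
          rw [mem_hx_true]
          constructor <;> simp <;> omega
        · refine ⟨⟨hB _ _ (by omega) (by omega) (by omega) (by omega) ⟨i + k, by omega⟩, ?_⟩,
            by simp⟩
          rw [mem_hx_true]
          constructor <;> simp <;> omega
      · simp only [List.pairwise_cons, List.mem_cons, List.not_mem_nil, or_false, forall_eq_or_imp,
          forall_eq, mem_hx_true, mem_hx_false, List.Pairwise.nil, and_true, false_imp_iff,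
          implies_true]
        omega
      · intro F hF hk' hoff
        have o1 := hoff ((X - 2, y), (X - 1, y, false)) (by simp)
        have o2 := hoff ((X - 1, y + 1), (X - 1, y + 1, true)) (by simp)
        have o3 := hoff ((X, y), (X, y, true)) (by simp)
        simp only at o1 o2 o3
        have hs2 : ((X - 1, y, true) : Edg) ∈ F := by
          rcases hpar F hF hk' with h | h
          · exact h.1
          · exact absurd h.2 o3
        have hsub := (mem_LC.1 hF).1
        have w1 : ((X + 1, y, false) : Edg) ∉ F := by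
          obtain ⟨p1, _⟩ := par3 hF (hva (X + 1) y (by omega)) (hvb (X + 1) y (by omega))
            (s3 := (X + 1, y, false)) (Or.inr ⟨⟨i + k + 1, by omega⟩, rfl⟩) rfl rfl
          have h1 : ((X + 1, y, true) : Edg) ∉ F := by
            intro h
            have := mem_HE_true.1 (hsub h)
            omega
          rw [add_sub_cancel_right] at p1
          rcases p1 with ⟨h, _, _⟩ | ⟨h, _, _⟩ | ⟨_, h, _⟩ | ⟨_, _, h⟩
          · exact absurd h o3
          · exact absurd h o3
          · exact absurd h h1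
          · exact h
        have w2 : ((X, y + 1, true) : Edg) ∉ F := by
          obtain ⟨p1, _⟩ := par3 hF (hva (X + 1) (y + 1) (by omega))
            (hvb (X + 1) (y + 1) (by omega))
            (s3 := (X + 1, y + 1 - 1, false)) (Or.inl ⟨⟨i + k + 1, by omega⟩, rfl⟩) rfl rfl
          have h1 : ((X + 1, y + 1, true) : Edg) ∉ F := by
            intro h
            have := mem_HE_true.1 (hsub h)
            omega
          rw [add_sub_cancel_right, add_sub_cancel_right] at p1
          rcases p1 with ⟨_, h, _⟩ | ⟨_, _, h⟩ | ⟨_, h, _⟩ | ⟨h, _, _⟩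
          · exact absurd h h1
          · exact absurd h w1
          · exact absurd h h1
          · exact h
        refine one_card hs2 (by rw [mem_hx_true]; simp) ?_
        intro f hf hne
        rcases mem_hx.1 hf with rfl | rfl | rfl | rfl | rfl | rfl
        · exact absurd rfl hne
        · exact o3
        · exact o1
        · exact w1
        · exact o2
        · exact w2
    · -- the middle
      refine hfin [((X - 2, y), (X - 1, y, false)), ((X + 2, y), (X + 1, y, false)),
        ((X - 1, y + 1), (X - 1, y + 1, true)), ((X + 1, y + 1), (X, y + 1, true)),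
        ((X, y), (X - 1, y, true))] (by simp) ?_ ?_ ?_
      · intro p hp
        simp only [List.mem_cons, List.not_mem_nil, or_false] at hp
        rcases hp with rfl | rfl | rfl | rfl | rfl
        · refine ⟨⟨hB _ _ (by omega) (by omega) (by omega) (by omega) ⟨i + k - 1, by omega⟩, ?_⟩,
            by simp⟩
          rw [mem_hx_false]
          constructor <;> simp <;> omega
        · refine ⟨⟨hB _ _ (by omega) (by omega) (by omega) (by omega) ⟨i + k + 1, by omega⟩, ?_⟩,
            by simp⟩
          rw [mem_hx_false]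
          constructor <;> simp <;> omega
        · refine ⟨⟨hB _ _ (by omega) (by omega) (by omega) (by omega) ⟨i + k, by omega⟩, ?_⟩,
            by simp⟩
          rw [mem_hx_true]
          constructor <;> simp <;> omega
        · refine ⟨⟨hB _ _ (by omega) (by omega) (by omega) (by omega) ⟨i + k + 1, by omega⟩, ?_⟩,
            by simp⟩
          rw [mem_hx_true]
          constructor <;> simp <;> omega
        · refine ⟨⟨hB _ _ (by omega) (by omega) (by omega) (by omega) ⟨i + k, by omega⟩, ?_⟩,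
            by simp⟩
          rw [mem_hx_true]
          constructor <;> simp <;> omega
      · simp only [List.pairwise_cons, List.mem_cons, List.not_mem_nil, or_false, forall_eq_or_imp,
          forall_eq, mem_hx_true, mem_hx_false, List.Pairwise.nil, and_true, false_imp_iff,
          implies_true]
        omega
      · intro F hF hk' hoff
        have o1 := hoff ((X - 2, y), (X - 1, y, false)) (by simp)
        have o2 := hoff ((X + 2, y), (X + 1, y, false)) (by simp)
        have o3 := hoff ((X - 1, y + 1), (X - 1, y + 1, true)) (by simp)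
        have o4 := hoff ((X + 1, y + 1), (X, y + 1, true)) (by simp)
        have o5 := hoff ((X, y), (X - 1, y, true)) (by simp)
        simp only at o1 o2 o3 o4 o5
        have hs2 : ((X, y, true) : Edg) ∈ F := by
          rcases hpar F hF hk' with h | h
          · exact absurd h.1 o5
          · exact h.2
        refine one_card hs2 (by rw [mem_hx_true]; simp) ?_
        intro f hf hne
        rcases mem_hx.1 hf with rfl | rfl | rfl | rfl | rfl | rfl
        · exact o5
        · exact absurd rfl hne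
        · exact o1
        · exact o2
        · exact o3
        · exact o4

end

end Pool.Agent.U198.LO
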