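import Pool.Agent.U198.LO.Rows
import Pool.Agent.N929.EG.GC

/-!
# The slots of the path
-/

set_option autoImplicit false
set_option linter.unusedVariables false

namespace Pool.Agent.U198.LO

open H974 Finset
open Pool.Agent.U198.FK (Fl mem_Fl Expl expl nT)
open scoped Classical

noncomputable section

variable {W H : ℕ} {a b : Vtx}

theorem fp_inter (F : Finset Edg) (q : Vtx) : fp F q ∩ hx q = hx q \ F := by
  ext f
  rw [mem_inter, mem_fp, mem_sdiff]
  constructor
  · rintro ⟨h1 | h1, h2⟩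
    · exact absurd h2 h1.2
    · exact h1
  · exact fun h => ⟨Or.inr h, h.1⟩

/-- replacing an edge by the other way round the hexagon -/
theorem gen (ha : a.2 = 0) (hb : b.2 = H) {F : Finset Edg} (hF : F ∈ LC W H a b) {q : Vtx}
    (hq : q ∈ SB W H) {e : Edg} (he : F ∩ hx q = {e}) {u : Vtx} (hu : ¬ hV q u) {v : Vtx}
    (hv : ¬ hV q v) : Reach (↑(fp F q) : Set Edg) u v ↔ Reach (↑F : Set Edg) u v := by
  have he1 : e ∈ F ∧ e ∈ hx q := by
    have h1 : e ∈ F ∩ hx q := by rw [he]; exact mem_singleton_self e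
    exact mem_inter.1 h1
  have uniq : ∀ f, f ∈ F → f ∈ hx q → f = e := by
    intro f h1 h2
    have h3 : f ∈ F ∩ hx q := mem_inter.2 ⟨h1, h2⟩
    rw [he, mem_singleton] at h3
    exact h3
  have hst : Reach (↑F : Set Edg) (src e) (tgt e) :=
    Adj.reach ⟨e, Finset.mem_coe.2 he1.1, Or.inl ⟨rfl, rfl⟩⟩
  have touch : ∀ f ∈ F, ∀ w, (src f = w ∨ tgt f = w) → hV q w →
      Reach (↑F : Set Edg) (src e) w := by
    intro f hf w hw hqw
    by_cases h1 : w = src e
    · rw [h1]; exact Reach.refl _ _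
    · by_cases h2 : w = tgt e
      · rw [h2]; exact hst
      · have := iso ha hb hF hq he hqw h1 h2 f hf
        rcases hw with hw | hw
        · exact absurd hw this.1
        · exact absurd hw this.2
  have hh : ∀ w w', hV q w → hV q w' → Reach (↑(fp F q) : Set Edg) w w' := by
    intro w w' hw hw'
    have h1 := hreach (G := (↑(fp F q) : Set Edg)) he1.2 (fun f hf hne =>
      Finset.mem_coe.2 (mem_fp.2 (Or.inr ⟨hf, fun h2 => hne (uniq f h2 hf)⟩)))
    exact (h1 w hw).symm.trans (h1 w' hw')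
  constructor
  · intro hr
    have key : ∀ w, Reach (↑(fp F q) : Set Edg) u w →
        (¬ hV q w ∧ Reach (↑F : Set Edg) u w) ∨ (hV q w ∧ Reach (↑F : Set Edg) u (src e)) := by
      intro w hw
      induction hw with
      | refl => exact Or.inl ⟨hu, Reach.refl _ _⟩
      | @tail x y _ hs ih =>
        obtain ⟨f, hf, hs⟩ := hs
        rcases mem_fp.1 (Finset.mem_coe.1 hf) with ⟨h1, h2⟩ | ⟨h1, h2⟩
        · have hxr : Reach (↑F : Set Edg) u x := by
            rcases ih with ⟨_, ih⟩ | ⟨ih1, ih2⟩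
            · exact ih
            · exact ih2.trans (touch f h1 x (hs.elim (fun k => Or.inl k.1)
                (fun k => Or.inr k.2)) ih1)
          have hyr : Reach (↑F : Set Edg) u y :=
            hxr.trans (Adj.reach ⟨f, Finset.mem_coe.2 h1, hs⟩)
          by_cases hy : hV q y
          · right
            exact ⟨hy, hyr.trans (touch f h1 y (hs.elim (fun k => Or.inr k.2)
              (fun k => Or.inl k.1)) hy).symm⟩
          · exact Or.inl ⟨hy, hyr⟩
        · obtain ⟨h3, h4⟩ := hx_hV h1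
          right
          rcases hs with ⟨rfl, rfl⟩ | ⟨rfl, rfl⟩
          · refine ⟨h4, ?_⟩
            rcases ih with ⟨ih, _⟩ | ⟨_, ih⟩
            · exact absurd h3 ih
            · exact ih
          · refine ⟨h3, ?_⟩
            rcases ih with ⟨ih, _⟩ | ⟨_, ih⟩
            · exact absurd h4 ih
            · exact ih
    rcases key v hr with h | h
    · exact h.2
    · exact absurd h.1 hv
  · intro hr
    clear hu hv
    induction hr with
    | refl => exact Reach.refl _ _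
    | @tail x y _ hs ih =>
      obtain ⟨f, hf, hs⟩ := hs
      refine ih.trans ?_
      by_cases h1 : f ∈ hx q
      · obtain ⟨h2, h3⟩ := hx_hV h1
        rcases hs with ⟨rfl, rfl⟩ | ⟨rfl, rfl⟩
        · exact hh _ _ h2 h3
        · exact hh _ _ h3 h2
      · exact Adj.reach ⟨f, Finset.mem_coe.2 (mem_fp.2 (Or.inl ⟨Finset.mem_coe.1 hf, h1⟩)), hs⟩

/-- neighbouring hexagons -/
def cfl (q q' : Vtx) : Prop := |q.1 - q'.1| ≤ 2 ∧ |q.2 - q'.2| ≤ 1

theorem hV_disj {q q' : Vtx} (h : ¬ cfl q q') {v : Vtx} (h1 : hV q v) : ¬ hV q' v := by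
  intro h2
  apply h
  unfold hV at h1 h2
  unfold cfl
  rw [abs_le, abs_le]
  omega

/-- moves at distant hexagons do not influence each other -/
theorem swap (ha : a.2 = 0) (hb : b.2 = H) {F : Finset Edg} (hF : F ∈ LC W H a b) {q : Vtx}
    (hq : q ∈ SB W H) {e : Edg} (he : F ∩ hx q = {e}) {q' : Vtx} (hqq : ¬ cfl q q') (e' : Edg) :
    Sw W H a b (fp F q) q' e' ↔ Sw W H a b F q' e' := by
  have hd : ∀ f, f ∈ hx q' → f ∉ hx q := fun f h1 h2 => hV_disj hqq (hx_hV h2).1 (hx_hV h1).1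
  have h1 : fp F q ∩ hx q' = F ∩ hx q' := by
    ext f
    rw [mem_inter, mem_inter, mem_fp]
    constructor
    · rintro ⟨h1 | h1, h2⟩
      · exact ⟨h1.1, h2⟩
      · exact absurd h1.1 (hd f h2)
    · rintro ⟨h1, h2⟩
      exact ⟨Or.inl ⟨h1, hd f h2⟩, h2⟩
  have hqB := mem_SB.1 hq
  have h2 := fp_LC hF hqB.1
  have h3 : ¬ hV q a := by
    intro h
    have := h.2
    omega
  have h4 : e' ∈ hx q' → (Reach (↑(fp F q) : Set Edg) a (src e') ↔
      Reach (↑F : Set Edg) a (src e')) := by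
    intro h
    exact gen ha hb hF hq he h3 (fun h5 => hV_disj hqq h5 (hx_hV h).1)
  constructor
  · intro h
    have h5 := h.he1.2
    exact ⟨ha, hb, hF, h.hq, by rw [← h1]; exact h.he, (h4 h5).1 h.hr⟩
  · intro h
    have h5 := h.he1.2
    exact ⟨ha, hb, h2, h.hq, by rw [h1]; exact h.he, (h4 h5).2 h.hr⟩

open Pool.Agent.N929.EG in
/-- the system of moves -/
def TSl (W H : ℕ) (a b : Vtx) (ha : a.2 = 0) (hb : b.2 = H) : TS (Finset Edg) Vtx where
  K n := Fl (LC W H a b) (fun F => (Pt a F).card = n)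
  len F := (Pt a F).card
  S F := Fl (SB W H) (fun q => ∃ e, Sw W H a b F q e)
  B F := Fl (SB W H) (fun q => ∃ e, Sw W H a b (fp F q) q e)
  ins F q := fp F q
  rem F q := fp F q
  s := 4
  cf := cfl
  d := 15
  U _ := SB W H
  hs := by norm_num
  len_K n F h := (mem_Fl.1 h).2
  ins_K n F q hF hq := by
    obtain ⟨h1, h2⟩ := mem_Fl.1 hF
    obtain ⟨h3, e, h4⟩ := mem_Fl.1 hq
    exact mem_Fl.2 ⟨fp_LC h1 (mem_SB.1 h3).1, by rw [h4.pt_card, h2]⟩
  ins_B n F q hF hq := by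
    obtain ⟨h3, e, h4⟩ := mem_Fl.1 hq
    exact mem_Fl.2 ⟨h3, e, by rw [fp_fp]; exact h4⟩
  rem_ins n F q hF hq := fp_fp F q
  rem_le n F q hF hq := by
    obtain ⟨h1, h2⟩ := mem_Fl.1 hF
    obtain ⟨h3, e, h4⟩ := mem_Fl.1 hq
    have h5 := h4.pt_card
    rw [fp_fp, h2] at h5
    omega
  rem_K n F q hF hq := by
    obtain ⟨h1, h2⟩ := mem_Fl.1 hF
    obtain ⟨h3, e, h4⟩ := mem_Fl.1 hq
    have h5 := h4.pt_card
    rw [fp_fp, h2] at h5
    exact mem_Fl.2 ⟨fp_LC h1 (mem_SB.1 h3).1, by omega⟩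
  rem_S n F q hF hq := mem_Fl.2 (mem_Fl.1 hq)
  ins_rem n F q hF hq := fp_fp F q
  disj n F q hF hq := by
    obtain ⟨h3, e, h4⟩ := mem_Fl.1 hq
    intro h
    obtain ⟨_, e', h5⟩ := mem_Fl.1 h
    have h6 := h5.he
    rw [fp_inter] at h6
    have h7 := congrArg Finset.card h6
    have h8 := congrArg Finset.card h4.he
    rw [card_singleton] at h7 h8
    have h9 := card_sdiff_add_card_inter (hx q) F
    rw [inter_comm, h7, h8, hx_card] at h9
    omega
  cf_symm q q' h := by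
    unfold cfl at h ⊢
    rw [abs_sub_comm q'.1, abs_sub_comm q'.2]
    exact h
  ins_S n F q q' hF hq hqq := by
    obtain ⟨h1, h2⟩ := mem_Fl.1 hF
    obtain ⟨h3, e, h4⟩ := mem_Fl.1 hq
    rw [mem_Fl, mem_Fl]
    constructor
    · rintro ⟨h5, e', h6⟩
      exact ⟨h5, e', (swap ha hb h1 h3 h4.he hqq e').1 h6⟩
    · rintro ⟨h5, e', h6⟩
      exact ⟨h5, e', (swap ha hb h1 h3 h4.he hqq e').2 h6⟩
  ins_BB n F q q' hF hq hqq := by
    obtain ⟨h1, h2⟩ := mem_Fl.1 hF
    obtain ⟨h3, e, h4⟩ := mem_Fl.1 hq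
    rw [mem_Fl, mem_Fl]
    have hd : ∀ f, f ∈ hx q → f ∉ hx q' := fun f k1 k2 =>
      hV_disj hqq (hx_hV k1).1 (hx_hV k2).1
    have h7 : fp F q' ∩ hx q = {e} := by
      rw [← h4.he]
      ext f
      rw [mem_inter, mem_inter, mem_fp]
      constructor
      · rintro ⟨h1 | h1, h2⟩
        · exact ⟨h1.1, h2⟩
        · exact absurd h1.1 (hd f h2)
      · rintro ⟨h1, h2⟩
        exact ⟨Or.inl ⟨h1, hd f h2⟩, h2⟩
    constructor
    · rintro ⟨h5, e', h6⟩
      rw [fp_comm] at h6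
      exact ⟨h5, e', (swap ha hb (fp_LC h1 (mem_SB.1 h5).1) h3 h7 hqq e').1 h6⟩
    · rintro ⟨h5, e', h6⟩
      refine ⟨h5, e', ?_⟩
      rw [fp_comm]
      exact (swap ha hb (fp_LC h1 (mem_SB.1 h5).1) h3 h7 hqq e').2 h6
  ins_comm n F q q' hF hq hq' hqq := fp_comm F q q'
  S_U n N F hF hn := ⟨fun y hy => (mem_Fl.1 hy).1, fun y hy => (mem_Fl.1 hy).1⟩
  deg N q hq := by
    have h1 : (SB W H).filter (fun q' => cfl q q') ⊆
        (Finset.Icc (q.1 - 2) (q.1 + 2)) ×ˢ (Finset.Icc (q.2 - 1) (q.2 + 1)) := by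
      intro q' hq'
      obtain ⟨_, h2, h3⟩ := mem_filter.1 hq'
      rw [abs_le] at h2 h3
      rw [mem_product, mem_Icc, mem_Icc]
      omega
    refine (card_le_card h1).trans ?_
    rw [card_product, Int.card_Icc, Int.card_Icc]
    have e1 : (q.1 + 2 + 1 - (q.1 - 2)).toNat = 5 := by
      rw [show q.1 + 2 + 1 - (q.1 - 2) = 5 by ring]
      rfl
    have e2 : (q.2 + 1 + 1 - (q.2 - 1)).toNat = 3 := by
      rw [show q.2 + 1 + 1 - (q.2 - 1) = 3 by ring]
      rfl
    rw [e1, e2]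

/-- the slots -/
def Gl (W H : ℕ) (a b : Vtx) (F : Finset Edg) : Finset Vtx :=
  Fl (SB W H) (fun q => (∃ e, Sw W H a b F q e) ∨ ∃ e, Sw W H a b (fp F q) q e)

/-- **the exploration** -/
theorem explLO (hW : Even W) (hW4 : 4 ≤ W) (ha : a.2 = 0) (hb : b.2 = H) {c n x : ℝ}
    (B : Bd c n x) :
    Expl (LC W H a b) (wt n x a) ky (tc H) (su a H) ((1 + c ^ 18) ^ 5) := by
  refine ⟨fun F _ => (wt_pos B a F).le, ?_, ?_, ?_, ?_, ?_⟩
  · intro t F _ F' _ h
    unfold ky at h ⊢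
    have h1 : ∀ G : Finset Edg, ct (yt t) G = Fl (ct (yt (t + 1)) G) (fun e => e.2.1 < yt t) := by
      intro G
      ext f
      rw [mem_ct, mem_Fl, mem_ct]
      constructor
      · rintro ⟨h2, h3⟩
        refine ⟨⟨h2, ?_⟩, h3⟩
        unfold yt at h3 ⊢
        push_cast
        omega
      · rintro ⟨⟨h2, _⟩, h3⟩
        exact ⟨h2, h3⟩
    rw [h1 F, h1 F', h]
  · intro t F _ F' _ h ht
    exact ht
  · intro t F _ F' _ h hs
    obtain ⟨h1, h2⟩ := hs
    refine ⟨h1, ?_⟩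
    unfold ky at h
    have h3 : ct (yt t) F = ct (yt t) F' := by
      have h1 : ∀ G : Finset Edg, ct (yt t) G = Fl (ct (yt (t + 1)) G) (fun e => e.2.1 < yt t) := by
        intro G
        ext f
        rw [mem_ct, mem_Fl, mem_ct]
        constructor
        · rintro ⟨h2, h3⟩
          refine ⟨⟨h2, ?_⟩, h3⟩
          unfold yt at h3 ⊢
          push_cast
          omega
        · rintro ⟨⟨h2, _⟩, h3⟩
          exact ⟨h2, h3⟩
      rw [h1 F, h1 F', h]
    have h4 : qt a t F' = qt a t F := by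
      unfold qt
      rw [h3]
    rw [h4]
    have h5 : F' ∩ hx (qt a t F) = F ∩ hx (qt a t F) := by
      have h6 : ∀ f, f ∈ hx (qt a t F) → f.2.1 < yt (t + 1) := by
        intro f hf
        have h7 : (qt a t F).2 = yt t := rfl
        have h8 : yt (t + 1) = yt t + 2 := by
          unfold yt
          push_cast
          ring
        obtain ⟨fx, fy, fb⟩ := f
        cases fb
        · rw [mem_hx_false] at hf
          simp only
          omega
        · rw [mem_hx_true] at hf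
          simp only
          omega
      ext f
      rw [mem_inter, mem_inter]
      constructor
      · rintro ⟨k1, k2⟩
        have k3 : f ∈ ct (yt (t + 1)) F' := mem_ct.2 ⟨k1, h6 f k2⟩
        rw [← h] at k3
        exact ⟨(mem_ct.1 k3).1, k2⟩
      · rintro ⟨k1, k2⟩
        have k3 : f ∈ ct (yt (t + 1)) F := mem_ct.2 ⟨k1, h6 f k2⟩
        rw [h] at k3
        exact ⟨(mem_ct.1 k3).1, k2⟩
    rw [h5]
    exact h2
  · intro t F _ h
    exact h.1
  · intro t F₀ hF₀ ht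
    exact test hW hW4 ha hb B hF₀ ht

theorem suc_le (hW : Even W) (hW4 : 4 ≤ W) (ha : a.2 = 0) (hb : b.2 = H) {F : Finset Edg}
    (hF : F ∈ LC W H a b) (N : ℕ) : nT (su a H) 0 N F ≤ (Gl W H a b F).card := by
  unfold nT
  refine card_le_card_of_injOn (fun s => qt a s F) ?_ ?_
  · intro t ht
    obtain ⟨h1, h3⟩ := (mem_filter.1 (mem_coe.1 ht)).2
    obtain ⟨y1, y2⟩ := yt_le h1
    obtain ⟨X, hX⟩ : ∃ X, X = uo a (yt t) (ct (yt t) F) := ⟨_, rfl⟩
    obtain ⟨x1, x2, x3, x4, x5⟩ := qt_pos hW ha hb hF h1 hX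
    have hq : qt a t F = (X, yt t) := by unfold qt; rw [hX]
    have hqS : qt a t F ∈ SB W H := by
      rw [hq]
      obtain ⟨i, hi⟩ := x3
      refine mem_SB.2 ⟨mem_HB.2 ⟨⟨x1, x2, by show 0 ≤ yt t; omega, by show yt t + 1 ≤ H; omega⟩,
        ⟨i + t + 1, ?_⟩⟩, by show 1 ≤ yt t; omega, by show yt t + 2 ≤ H; omega⟩
      show X + yt t = 2 * (i + t + 1) + 1
      unfold yt
      omega
    obtain ⟨e, he⟩ := card_eq_one.1 h3
    refine mem_coe.2 (mem_Fl.2 ⟨hqS, Or.inl ⟨e, ha, hb, hF, hqS, he, ?_⟩⟩)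
    -- the edge is at `(X, y)`
    have huniq : ∀ f ∈ F, f ∈ hx (qt a t F) → f = e := by
      intro f k1 k2
      have h3 : f ∈ F ∩ hx (qt a t F) := mem_inter.2 ⟨k1, k2⟩
      rw [he, mem_singleton] at h3
      exact h3
    have hva : ((X, yt t) : Vtx) ≠ a := by
      rintro rfl
      simp only at ha
      omega
    have hvb : ((X, yt t) : Vtx) ≠ b := by
      rintro rfl
      simp only at hb
      omega
    obtain ⟨i, hi⟩ := x3
    obtain ⟨p1, _⟩ := par3 hF hva hvb (s3 := (X, yt t - 1, false))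
      (Or.inl ⟨⟨i + t + 1, by unfold yt; omega⟩, rfl⟩) rfl rfl
    have hcase : ((X - 1, yt t, true) : Edg) ∈ F ∨ ((X, yt t, true) : Edg) ∈ F := by
      rcases p1 with ⟨h, _, _⟩ | ⟨h, _, _⟩ | ⟨_, h, _⟩ | ⟨_, _, h⟩
      · exact Or.inl h
      · exact Or.inl h
      · exact Or.inr h
      · exact absurd x4 h
    rcases hcase with h | h
    · have h5 := huniq _ h (by rw [hq, mem_hx_true]; simp)
      rw [← h5]
      refine x5.trans (Adj.reach ⟨(X - 1, yt t, true), Finset.mem_coe.2 h, Or.inr ⟨rfl, ?_⟩⟩)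
      simp
    · have h5 := huniq _ h (by rw [hq, mem_hx_true]; simp)
      rw [← h5]
      exact x5
  · intro s _ s' _ h
    have h1 : (qt a s F).2 = (qt a s' F).2 := by
      have h' : qt a s F = qt a s' F := h
      rw [h']
    have h2 : yt s = yt s' := h1
    unfold yt at h2
    omega

theorem tch_eq (F : Finset Edg) : Jn H ≤ nT (tc H) 0 (Jn H) F := by
  unfold nT
  have h1 : (Finset.Ico 0 (Jn H)).filter (fun s => tc H s F) = Finset.Ico 0 (Jn H) := by
    ext s
    rw [mem_filter, mem_Ico]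
    unfold tc
    tauto
  rw [h1, Nat.card_Ico]
  omega

end

end Pool.Agent.U198.LO
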