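import Pool.Agent.U198.LO.Flip

/-!
# Weights: changing few edges
-/

set_option autoImplicit false
set_option linter.unusedVariables false

namespace Pool.Agent.U198.LO

open H974 Finset
open Pool.Agent.U198.FK (Fl mem_Fl)
open scoped Classical

noncomputable section

theorem comp {F : Finset Edg} {f : Edg} {s : Vtx} (h : ¬ Reach (↑F : Set Edg) s (src f))
    (h' : ¬ Reach (↑F : Set Edg) s (tgt f)) (w : Vtx) :
    Reach (↑(insert f F) : Set Edg) s w ↔ Reach (↑F : Set Edg) s w := by
  constructor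
  · intro hr
    induction hr with
    | refl => exact Reach.refl _ _
    | @tail x y _ hs ih =>
      obtain ⟨g, hg, hs⟩ := hs
      rcases mem_insert.1 (Finset.mem_coe.1 hg) with rfl | hg
      · rcases hs with ⟨rfl, _⟩ | ⟨_, rfl⟩
        · exact absurd ih h
        · exact absurd ih h'
      · exact ih.trans (Adj.reach ⟨g, Finset.mem_coe.2 hg, hs⟩)
  · exact fun hr => Reach.mono (by
      intro g hg
      exact Finset.mem_coe.2 (mem_insert_of_mem (Finset.mem_coe.1 hg))) hr

theorem rmono {F : Finset Edg} {f : Edg} {s w : Vtx} (h : Reach (↑F : Set Edg) s w) :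
    Reach (↑(insert f F) : Set Edg) s w := Reach.mono (by
      intro g hg
      exact Finset.mem_coe.2 (mem_insert_of_mem (Finset.mem_coe.1 hg))) h

theorem ls_le1 (a : Vtx) {F : Finset Edg} {f : Edg} (hf : f ∉ F) :
    (Ls a (insert f F)).card ≤ (Ls a F).card + 1 := by
  have hsub : Ls a (insert f F) ⊆ insert (Fl (insert f F)
      (fun g => Reach (↑(insert f F) : Set Edg) (src f) (src g))) (Ls a F) := by
    intro C hC
    unfold Ls at hC
    obtain ⟨g, hg, rfl⟩ := mem_image.1 hC
    obtain ⟨h1, h2⟩ := mem_Fl.1 hg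
    rw [mem_insert]
    have hadj : Reach (↑(insert f F) : Set Edg) (src f) (tgt f) :=
      Adj.reach ⟨f, Finset.mem_coe.2 (mem_insert_self f F), Or.inl ⟨rfl, rfl⟩⟩
    by_cases h3 : Reach (↑(insert f F) : Set Edg) (src f) (src g)
    · left
      ext k
      rw [mem_Fl, mem_Fl]
      exact ⟨fun h => ⟨h.1, h3.trans h.2⟩, fun h => ⟨h.1, h3.symm.trans h.2⟩⟩
    · right
      have h4 : ¬ Reach (↑(insert f F) : Set Edg) (src g) (src f) := fun h => h3 h.symm
      have h5 : ¬ Reach (↑(insert f F) : Set Edg) (src g) (tgt f) :=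
        fun h => h3 (hadj.trans h.symm)
      have h6 := comp (F := F) (f := f) (s := src g) (fun h => h4 (rmono h)) (fun h => h5 (rmono h))
      have hgF : g ∈ F := by
        rcases mem_insert.1 h1 with rfl | h
        · exact absurd (Reach.refl _ _) h3
        · exact h
      unfold Ls
      refine mem_image.2 ⟨g, mem_Fl.2 ⟨hgF, fun h => h2 (rmono h)⟩, ?_⟩
      ext k
      rw [mem_Fl, mem_Fl, h6]
      constructor
      · exact fun h => ⟨mem_insert_of_mem h.1, h.2⟩
      · rintro ⟨h7, h8⟩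
        refine ⟨?_, h8⟩
        rcases mem_insert.1 h7 with rfl | h
        · exact absurd (rmono h8) h4
        · exact h
  exact (card_le_card hsub).trans (card_insert_le _ _)

theorem ls_le2 (a : Vtx) {F : Finset Edg} {f : Edg} (hf : f ∉ F) :
    (Ls a F).card ≤ (Ls a (insert f F)).card + 2 := by
  have hsub : Ls a F ⊆ insert (Fl F (fun g => Reach (↑F : Set Edg) (src f) (src g)))
      (insert (Fl F (fun g => Reach (↑F : Set Edg) (tgt f) (src g))) (Ls a (insert f F))) := by
    intro C hC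
    unfold Ls at hC
    obtain ⟨g, hg, rfl⟩ := mem_image.1 hC
    obtain ⟨h1, h2⟩ := mem_Fl.1 hg
    rw [mem_insert, mem_insert]
    by_cases h3 : Reach (↑F : Set Edg) (src f) (src g)
    · left
      ext k
      rw [mem_Fl, mem_Fl]
      exact ⟨fun h => ⟨h.1, h3.trans h.2⟩, fun h => ⟨h.1, h3.symm.trans h.2⟩⟩
    · right
      by_cases h3' : Reach (↑F : Set Edg) (tgt f) (src g)
      · left
        ext k
        rw [mem_Fl, mem_Fl]
        exact ⟨fun h => ⟨h.1, h3'.trans h.2⟩, fun h => ⟨h.1, h3'.symm.trans h.2⟩⟩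
      · right
        have h6 := comp (F := F) (f := f) (s := src g) (fun h => h3 h.symm) (fun h => h3' h.symm)
        unfold Ls
        refine mem_image.2 ⟨g, mem_Fl.2 ⟨mem_insert_of_mem h1, fun h => h2 ?_⟩, ?_⟩
        · exact ((h6 _).1 h.symm).symm
        · ext k
          rw [mem_Fl, mem_Fl, h6]
          constructor
          · rintro ⟨h7, h8⟩
            refine ⟨?_, h8⟩
            rcases mem_insert.1 h7 with rfl | h
            · exact absurd h8.symm h3
            · exact h
          · exact fun h => ⟨mem_insert_of_mem h.1, h.2⟩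
  refine (card_le_card hsub).trans ((card_insert_le _ _).trans ?_)
  have := card_insert_le (Fl F (fun g => Reach (↑F : Set Edg) (tgt f) (src g)))
    (Ls a (insert f F))
  omega

/-- the weight of a configuration: `x` for every edge, `n` for every loop -/
def wt (n x : ℝ) (a : Vtx) (F : Finset Edg) : ℝ := x ^ F.card * n ^ (Ls a F).card

/-- bounds for the parameters -/
structure Bd (c n x : ℝ) : Prop where
  c1 : 1 ≤ c
  n0 : 0 < n
  x0 : 0 < x
  nc : n ≤ c
  ncc : 1 ≤ c * n
  xc : x ≤ c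
  xcc : 1 ≤ c * x

variable {c n x : ℝ}

theorem wt_pos (B : Bd c n x) (a : Vtx) (F : Finset Edg) : 0 < wt n x a F := by
  have := B.n0
  have := B.x0
  unfold wt
  positivity

theorem pow_up {c t : ℝ} (hc : 1 ≤ c) (ht : 0 < t) (h1 : t ≤ c) (h2 : 1 ≤ c * t) {p q : ℕ}
    (hpq : p ≤ q + 2) (hqp : q ≤ p + 2) : t ^ p ≤ c ^ 2 * t ^ q := by
  have hc0 : 0 < c := by linarith
  rcases le_total q p with h | h
  · obtain ⟨k, rfl⟩ := Nat.exists_eq_add_of_le h
    rw [pow_add, mul_comm]
    refine mul_le_mul_of_nonneg_right ?_ (by positivity)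
    calc t ^ k ≤ c ^ k := pow_le_pow_left₀ ht.le h1 k
      _ ≤ c ^ 2 := pow_le_pow_right₀ hc (by omega)
  · obtain ⟨k, rfl⟩ := Nat.exists_eq_add_of_le h
    rw [pow_add]
    have h3 : 1 ≤ (c * t) ^ k := one_le_pow₀ h2
    have h4 : c ^ k ≤ c ^ 2 := pow_le_pow_right₀ hc (by omega)
    calc t ^ p = t ^ p * 1 := by ring
      _ ≤ t ^ p * (c * t) ^ k := mul_le_mul_of_nonneg_left h3 (by positivity)
      _ = (t ^ p * t ^ k) * c ^ k := by rw [mul_pow]; ring
      _ ≤ (t ^ p * t ^ k) * c ^ 2 := mul_le_mul_of_nonneg_left h4 (by positivity)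
      _ = _ := by ring

theorem wt_ins (B : Bd c n x) (a : Vtx) {F : Finset Edg} {f : Edg} (hf : f ∉ F) :
    wt n x a F ≤ c ^ 3 * wt n x a (insert f F) ∧ wt n x a (insert f F) ≤ c ^ 3 * wt n x a F := by
  have hc0 : 0 < c := by linarith [B.c1]
  have hx0 := B.x0
  have hn0 := B.n0
  have l1 := ls_le1 a hf
  have l2 := ls_le2 a hf
  have p1 := pow_up B.c1 B.n0 B.nc B.ncc (p := (Ls a F).card) (q := (Ls a (insert f F)).card)
    (by omega) (by omega)
  have p2 := pow_up B.c1 B.n0 B.nc B.ncc (p := (Ls a (insert f F)).card) (q := (Ls a F).card)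
    (by omega) (by omega)
  unfold wt
  rw [card_insert_of_notMem hf]
  have e1 : x ^ F.card ≤ c * x ^ (F.card + 1) := by
    rw [pow_succ]
    have := mul_le_mul_of_nonneg_left B.xcc (pow_pos hx0 F.card).le
    nlinarith
  have e2 : x ^ (F.card + 1) ≤ c * x ^ F.card := by
    rw [pow_succ, mul_comm]
    exact mul_le_mul_of_nonneg_right B.xc (by positivity)
  constructor
  · calc x ^ F.card * n ^ (Ls a F).card ≤ (c * x ^ (F.card + 1)) *
          (c ^ 2 * n ^ (Ls a (insert f F)).card) :=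
          mul_le_mul e1 p1 (by positivity) (by positivity)
      _ = _ := by ring
  · calc x ^ (F.card + 1) * n ^ (Ls a (insert f F)).card ≤ (c * x ^ F.card) *
          (c ^ 2 * n ^ (Ls a F).card) :=
          mul_le_mul e2 p2 (by positivity) (by positivity)
      _ = _ := by ring

theorem wt_symm (B : Bd c n x) (a : Vtx) (Z : Finset Edg) : ∀ F : Finset Edg,
    wt n x a F ≤ (c ^ 3) ^ Z.card * wt n x a (symmDiff F Z) := by
  have hc0 : 0 < c := by linarith [B.c1]
  induction Z using Finset.induction_on with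
  | empty =>
    intro F
    have : symmDiff F (∅ : Finset Edg) = F := symmDiff_bot F
    rw [this, card_empty, pow_zero, one_mul]
  | insert z Z hz ih =>
    intro F
    obtain ⟨G, hG⟩ : ∃ G, G = symmDiff F Z := ⟨_, rfl⟩
    have h1 := ih F
    rw [← hG] at h1
    have hzG : z ∈ G ↔ z ∈ F := by
      rw [hG, mem_symmDiff]
      constructor
      · rintro (h | h)
        · exact h.1
        · exact absurd h.1 hz
      · exact fun h => Or.inl ⟨h, hz⟩
    have h2 : wt n x a G ≤ c ^ 3 * wt n x a (symmDiff F (insert z Z)) := by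
      by_cases hzF : z ∈ F
      · have h3 : symmDiff F (insert z Z) = G.erase z := by
          ext k
          rw [mem_erase, hG, mem_symmDiff, mem_symmDiff, mem_insert]
          constructor
          · rintro (⟨h4, h5⟩ | ⟨h4, h5⟩)
            · exact ⟨fun h => h5 (Or.inl h), Or.inl ⟨h4, fun h => h5 (Or.inr h)⟩⟩
            · rcases h4 with rfl | h4
              · exact absurd hzF h5
              · exact ⟨fun h => h5 (h ▸ hzF), Or.inr ⟨h4, h5⟩⟩
          · rintro ⟨h4, ⟨h5, h6⟩ | ⟨h5, h6⟩⟩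
            · exact Or.inl ⟨h5, fun h => h.elim h4 h6⟩
            · exact Or.inr ⟨Or.inr h5, h6⟩
        rw [h3]
        have h4 := (wt_ins B a (F := G.erase z) (f := z) (notMem_erase z G)).2
        rwa [insert_erase (hzG.2 hzF)] at h4
      · have h3 : symmDiff F (insert z Z) = insert z G := by
          ext k
          rw [mem_insert, hG, mem_symmDiff, mem_symmDiff, mem_insert]
          constructor
          · rintro (⟨h4, h5⟩ | ⟨h4, h5⟩)
            · exact Or.inr (Or.inl ⟨h4, fun h => h5 (Or.inr h)⟩)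
            · rcases h4 with rfl | h4
              · exact Or.inl rfl
              · exact Or.inr (Or.inr ⟨h4, h5⟩)
          · rintro (rfl | ⟨h5, h6⟩ | ⟨h5, h6⟩)
            · exact Or.inr ⟨Or.inl rfl, hzF⟩
            · exact Or.inl ⟨h5, fun h => h.elim (fun h => hzF (h ▸ h5)) h6⟩
            · exact Or.inr ⟨Or.inr h5, h6⟩
        rw [h3]
        exact (wt_ins B a (F := G) (f := z) (fun h => hzF (hzG.1 h))).1
    rw [card_insert_of_notMem hz, pow_succ]
    refine h1.trans ?_
    rw [mul_assoc]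
    exact mul_le_mul_of_nonneg_left h2 (by positivity)

theorem wt_fp (B : Bd c n x) (a : Vtx) (F : Finset Edg) (q : Vtx) :
    wt n x a F ≤ c ^ 18 * wt n x a (fp F q) := by
  have h := wt_symm B a (hx q) F
  rw [hx_card, ← pow_mul] at h
  exact h

/-- the weight of a set of configurations -/
def Sm (n x : ℝ) (a : Vtx) (Ω : Finset (Finset Edg)) (P : Finset Edg → Prop) : ℝ :=
  ∑ F ∈ Fl Ω P, wt n x a F

variable {W H : ℕ} {a b : Vtx}

theorem Sm_mono (B : Bd c n x) {P Q : Finset Edg → Prop} (h : ∀ F ∈ LC W H a b, P F → Q F) :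
    Sm n x a (LC W H a b) P ≤ Sm n x a (LC W H a b) Q := by
  refine sum_le_sum_of_subset_of_nonneg ?_ (fun F _ _ => (wt_pos B a F).le)
  intro F hF
  rw [mem_Fl] at hF ⊢
  exact ⟨hF.1, h F hF.1 hF.2⟩

theorem off_one (B : Bd c n x) (P : Finset Edg → Prop) {q : Vtx} {f : Edg} (hq : q ∈ HB W H)
    (hf : f ∈ hx q) (hP : ∀ F, P F → P (fp F q)) :
    Sm n x a (LC W H a b) P ≤ (1 + c ^ 18) * Sm n x a (LC W H a b) (fun F => P F ∧ f ∉ F) := by
  have hc0 : 0 < c := by linarith [B.c1]
  have h1 : Sm n x a (LC W H a b) P = Sm n x a (LC W H a b) (fun F => P F ∧ f ∈ F) +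
      Sm n x a (LC W H a b) (fun F => P F ∧ f ∉ F) := by
    unfold Sm
    rw [← sum_filter_add_sum_filter_not (Fl (LC W H a b) P) (fun F => f ∈ F)
      (fun F => wt n x a F)]
    congr 1
    · refine sum_congr ?_ (fun _ _ => rfl)
      ext F
      rw [mem_filter, mem_Fl, mem_Fl, and_assoc]
    · refine sum_congr ?_ (fun _ _ => rfl)
      ext F
      rw [mem_filter, mem_Fl, mem_Fl, and_assoc]
  have h3 : Sm n x a (LC W H a b) (fun F => P F ∧ f ∈ F) ≤
      c ^ 18 * Sm n x a (LC W H a b) (fun F => P F ∧ f ∉ F) := by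
    unfold Sm
    refine (sum_le_sum (fun F _ => wt_fp B a F q)).trans ?_
    rw [← mul_sum]
    refine mul_le_mul_of_nonneg_left ?_ (by positivity)
    have h5 : ∑ F ∈ Fl (LC W H a b) (fun F => P F ∧ f ∈ F), wt n x a (fp F q) =
        ∑ F ∈ (Fl (LC W H a b) (fun F => P F ∧ f ∈ F)).image (fun F => fp F q),
          wt n x a F := by
      rw [sum_image]
      intro F _ F' _ h
      have h8 : fp F q = fp F' q := h
      rw [← fp_fp F q, h8, fp_fp]
    rw [h5]
    refine sum_le_sum_of_subset_of_nonneg ?_ (fun F _ _ => (wt_pos B a F).le)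
    intro F' hF'
    obtain ⟨F, hF, rfl⟩ := mem_image.1 hF'
    obtain ⟨hF1, hF2, hF3⟩ := mem_Fl.1 hF
    refine mem_Fl.2 ⟨fp_LC hF1 hq, hP F hF2, ?_⟩
    intro h
    rcases mem_fp.1 h with h | h
    · exact h.2 hf
    · exact h.2 hF3
  rw [h1, add_mul, one_mul]
  linarith

theorem off_list (B : Bd c n x) (P : Finset Edg → Prop) (l : List (Vtx × Edg))
    (h1 : ∀ p ∈ l, p.1 ∈ HB W H ∧ p.2 ∈ hx p.1)
    (h2 : l.Pairwise (fun p p' => p'.2 ∉ hx p.1))
    (hP : ∀ p ∈ l, ∀ F, P F → P (fp F p.1)) :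
    Sm n x a (LC W H a b) P ≤ (1 + c ^ 18) ^ l.length *
      Sm n x a (LC W H a b) (fun F => P F ∧ ∀ p ∈ l, p.2 ∉ F) := by
  have hc0 : 0 < c := by linarith [B.c1]
  induction l with
  | nil =>
    rw [List.length_nil, pow_zero, one_mul]
    refine Sm_mono B (fun F _ hF => ⟨hF, ?_⟩)
    intro p hp
    exact absurd hp List.not_mem_nil
  | cons p l ih =>
    rw [List.pairwise_cons] at h2
    have i1 := ih (fun p' hp' => h1 p' (List.mem_cons_of_mem _ hp')) h2.2
      (fun p' hp' => hP p' (List.mem_cons_of_mem _ hp'))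
    obtain ⟨g1, g2⟩ := h1 p List.mem_cons_self
    have i2 := off_one (W := W) (H := H) (a := a) (b := b) B (fun F => P F ∧ ∀ p ∈ l, p.2 ∉ F)
      g1 g2 (by
      rintro F ⟨h3, h4⟩
      refine ⟨hP p List.mem_cons_self F h3, ?_⟩
      intro p' hp' h5
      rcases mem_fp.1 h5 with h6 | h6
      · exact h4 p' hp' h6.1
      · exact h2.1 p' hp' h6.1)
    rw [List.length_cons, pow_succ, mul_assoc]
    refine i1.trans (mul_le_mul_of_nonneg_left (i2.trans ?_) (by positivity))
    refine mul_le_mul_of_nonneg_left ?_ (by positivity)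
    refine Sm_mono B ?_
    rintro F _ ⟨⟨h3, h4⟩, h5⟩
    refine ⟨h3, ?_⟩
    intro p' hp'
    rcases List.mem_cons.1 hp' with rfl | h6
    · exact h5
    · exact h4 p' h6

end

end Pool.Agent.U198.LO
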